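import Mathlib

/-!
# The oscillating function of the ring insertion lemma

`Psi M` (`M` even) is a smooth function with support in `[0, M + 3]`, whose derivatives up to the
third order are bounded independently of `M`, with `Psi'' ≤ 0` on `[0, 1]`, `Psi'' ≥ 0` on
`[M + 2, M + 3]`, and such that between `1` and `M + 2` one of `|Psi''|`, `|Psi'''|` is bounded below.
-/

open Set Filter Topology
open scoped ContDiff

namespace Pool.Agent.H30.Hedge

noncomputable section

/-- the bump -/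
def beta (x : ℝ) : ℝ := expNegInvGlue (1 - x ^ 2) / expNegInvGlue 1

lemma glue1_pos : 0 < expNegInvGlue 1 := expNegInvGlue.pos_of_pos one_pos

lemma beta_contDiff : ContDiff ℝ ∞ beta := by
  unfold beta
  apply ContDiff.div_const
  exact (expNegInvGlue.contDiff (n := ⊤)).comp (contDiff_const.sub (contDiff_id.pow 2))

lemma beta_nonneg (x : ℝ) : 0 ≤ beta x := div_nonneg (expNegInvGlue.nonneg _) glue1_pos.le

lemma beta_zero : beta 0 = 1 := by
  simp [beta, glue1_pos.ne']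

lemma beta_out {x : ℝ} (hx : 1 ≤ |x|) : beta x = 0 := by
  have : 1 - x ^ 2 ≤ 0 := by
    have : 1 ≤ |x| ^ 2 := one_le_pow₀ hx
    rw [sq_abs] at this
    linarith
  simp [beta, expNegInvGlue.zero_of_nonpos this]

lemma beta_even (x : ℝ) : beta (-x) = beta x := by simp [beta]

/-- the derivative of the bump -/
def beta1 (x : ℝ) : ℝ := deriv beta x

lemma beta_hasDeriv (x : ℝ) : HasDerivAt beta (beta1 x) x :=
  (beta_contDiff.differentiable (by simp) x).hasDerivAt

lemma beta1_contDiff : ContDiff ℝ ∞ beta1 := (contDiff_infty_iff_deriv.1 beta_contDiff).2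

lemma beta1_neg {x : ℝ} (h0 : 0 < x) (h1 : x < 1) : beta1 x < 0 := by
  have hpos : 0 < 1 - x ^ 2 := by nlinarith
  have hev : beta =ᶠ[𝓝 x] fun y => Real.exp (-(1 - y ^ 2)⁻¹) / expNegInvGlue 1 := by
    have : ∀ᶠ y in 𝓝 x, 0 < 1 - y ^ 2 :=
      (continuousAt_const.sub (continuousAt_id.pow 2)).eventually (lt_mem_nhds hpos)
    filter_upwards [this] with y hy
    simp [beta, expNegInvGlue, not_le.2 hy]
  have hd : HasDerivAt (fun y : ℝ => Real.exp (-(1 - y ^ 2)⁻¹) / expNegInvGlue 1)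
      (Real.exp (-(1 - x ^ 2)⁻¹) * (-(-(-(2 * x)) / (1 - x ^ 2) ^ 2)) / expNegInvGlue 1) x := by
    have h1 : HasDerivAt (fun y : ℝ => 1 - y ^ 2) (-(2 * x)) x := by
      have := (hasDerivAt_pow 2 x).const_sub 1
      simpa using this
    have h2 := (h1.inv hpos.ne').neg
    have h3 := (h2.exp).div_const (expNegInvGlue 1)
    exact h3
  have : beta1 x = _ := (hd.congr_of_eventuallyEq hev).deriv
  rw [this]
  have e1 := Real.exp_pos (-(1 - x ^ 2)⁻¹)
  have e2 : 0 < (1 - x ^ 2) ^ 2 := by positivity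
  have e3 : Real.exp (-(1 - x ^ 2)⁻¹) * (-(-(-(2 * x)) / (1 - x ^ 2) ^ 2)) / expNegInvGlue 1 =
      -(Real.exp (-(1 - x ^ 2)⁻¹) * (2 * x / (1 - x ^ 2) ^ 2) / expNegInvGlue 1) := by ring
  rw [e3]
  have := glue1_pos
  have : 0 < Real.exp (-(1 - x ^ 2)⁻¹) * (2 * x / (1 - x ^ 2) ^ 2) / expNegInvGlue 1 := by
    positivity
  linarith

lemma beta1_odd (x : ℝ) : beta1 (-x) = -beta1 x := by
  have h : HasDerivAt (fun y => beta (-y)) (-beta1 (-x)) x := by
    have := (beta_hasDeriv (-x)).comp x (hasDerivAt_neg x)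
    simpa [Function.comp_def] using this
  have h2 : (fun y => beta (-y)) = beta := funext beta_even
  rw [h2] at h
  have := h.unique (beta_hasDeriv x)
  linarith

lemma beta1_pos {x : ℝ} (h0 : -1 < x) (h1 : x < 0) : 0 < beta1 x := by
  have := beta1_neg (x := -x) (by linarith) (by linarith)
  rw [beta1_odd] at this
  linarith

/-- two neighbouring bumps of opposite signs: the value or the slope is bounded below -/
lemma two_bumps : ∃ κ : ℝ, 0 < κ ∧ ∀ a b s : ℝ, 1 ≤ a → a ≤ 4 → 1 ≤ b → b ≤ 4 → 0 ≤ s → s ≤ 1 →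
    1 / 2 ≤ |a * beta s - b * beta (s - 1)| ∨ κ ≤ |a * beta1 s - b * beta1 (s - 1)| := by
  have hc : Continuous beta := beta_contDiff.continuous
  have h0 : ∀ᶠ s in 𝓝 (0 : ℝ), 3 / 4 < beta s := by
    have : Tendsto beta (𝓝 0) (𝓝 1) := by
      have := hc.tendsto 0; rwa [beta_zero] at this
    exact this.eventually (lt_mem_nhds (by norm_num))
  have h1 : ∀ᶠ s in 𝓝 (0 : ℝ), beta (1 - s) < 1 / 16 := by
    have h10 : beta (1 - 0) = 0 := by rw [sub_zero]; exact beta_out (by simp)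
    have : Tendsto (fun s : ℝ => beta (1 - s)) (𝓝 0) (𝓝 0) := by
      have := (hc.comp (continuous_const.sub continuous_id)).tendsto (0 : ℝ) (f := fun s : ℝ => beta (1 - s))
      rwa [h10] at this
    exact this.eventually (gt_mem_nhds (by norm_num))
  obtain ⟨r, hr, hball⟩ := Metric.eventually_nhds_iff.1 (h0.and h1)
  set s0 : ℝ := min (r / 2) (1 / 4) with hs0
  have hs0pos : 0 < s0 := lt_min (by linarith) (by norm_num)
  have hs04 : s0 ≤ 1 / 4 := min_le_right _ _
  have hs0r : s0 < r := lt_of_le_of_lt (min_le_left _ _) (by linarith)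
  have near : ∀ s, 0 ≤ s → s ≤ s0 → 3 / 4 < beta s ∧ beta (1 - s) < 1 / 16 := by
    intro s h h'
    apply hball
    rw [Real.dist_eq, sub_zero, abs_of_nonneg h]
    linarith
  have hcomp : IsCompact (Icc s0 (1 - s0)) := isCompact_Icc
  have hne : (Icc s0 (1 - s0)).Nonempty := ⟨s0, le_refl _, by linarith⟩
  obtain ⟨x0, hx0, hmin⟩ := hcomp.exists_isMinOn hne
    (f := fun s => -beta1 s) (beta1_contDiff.continuous.neg.continuousOn)
  refine ⟨-beta1 x0, ?_, ?_⟩
  · have := beta1_neg (x := x0) (by linarith [hx0.1]) (by linarith [hx0.2])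
    linarith
  intro a b s ha ha4 hb hb4 hs hs1
  rcases le_or_gt s s0 with h | h
  · left
    obtain ⟨h2, h3⟩ := near s hs h
    have e : beta (s - 1) = beta (1 - s) := by rw [← beta_even]; congr 1; ring
    rw [e]
    have hn := beta_nonneg (1 - s)
    rw [abs_of_nonneg]
    · nlinarith
    · nlinarith
  rcases le_or_gt (1 - s0) s with h' | h'
  · left
    obtain ⟨h2, h3⟩ := near (1 - s) (by linarith) (by linarith)
    have e : beta (s - 1) = beta (1 - s) := by rw [← beta_even]; congr 1; ring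
    have e2 : beta (1 - (1 - s)) = beta s := by congr 1; ring
    rw [e2] at h3
    rw [e]
    have hn := beta_nonneg s
    rw [abs_of_nonpos]
    · nlinarith
    · nlinarith
  · right
    have hm : -beta1 x0 ≤ -beta1 s := hmin ⟨h.le, h'.le⟩
    have h2 : beta1 s < 0 := beta1_neg (by linarith) (by linarith)
    have h3 : 0 < beta1 (s - 1) := beta1_pos (by linarith) (by linarith)
    rw [abs_of_nonpos]
    · nlinarith
    · nlinarith

/-- first antiderivative -/
def G1 (x : ℝ) : ℝ := ∫ t in (-1 : ℝ)..x, beta t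

/-- second antiderivative -/
def G2 (x : ℝ) : ℝ := ∫ t in (-1 : ℝ)..x, G1 t

lemma G1_hasDeriv (x : ℝ) : HasDerivAt G1 (beta x) x :=
  intervalIntegral.integral_hasDerivAt_right (beta_contDiff.continuous.intervalIntegrable _ _)
    (beta_contDiff.continuous.stronglyMeasurableAtFilter _ _) beta_contDiff.continuous.continuousAt

lemma G1_contDiff : ContDiff ℝ ∞ G1 := by
  rw [contDiff_infty_iff_deriv]
  refine ⟨fun x => (G1_hasDeriv x).differentiableAt, ?_⟩
  have : deriv G1 = beta := funext fun x => (G1_hasDeriv x).deriv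
  rw [this]
  exact beta_contDiff

lemma G2_hasDeriv (x : ℝ) : HasDerivAt G2 (G1 x) x :=
  intervalIntegral.integral_hasDerivAt_right (G1_contDiff.continuous.intervalIntegrable _ _)
    (G1_contDiff.continuous.stronglyMeasurableAtFilter _ _) G1_contDiff.continuous.continuousAt

lemma G2_contDiff : ContDiff ℝ ∞ G2 := by
  rw [contDiff_infty_iff_deriv]
  refine ⟨fun x => (G2_hasDeriv x).differentiableAt, ?_⟩
  have : deriv G2 = G1 := funext fun x => (G2_hasDeriv x).deriv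
  rw [this]
  exact G1_contDiff

lemma G1_left {x : ℝ} (hx : x ≤ -1) : G1 x = 0 := by
  unfold G1
  rw [intervalIntegral.integral_symm, neg_eq_zero]
  apply intervalIntegral.integral_zero_ae
  refine Filter.Eventually.of_forall fun t ht => ?_
  rw [uIoc_of_le hx] at ht
  apply beta_out
  rw [abs_of_nonpos (by linarith [ht.2])]
  linarith [ht.2]

lemma G2_left {x : ℝ} (hx : x ≤ -1) : G2 x = 0 := by
  unfold G2
  rw [intervalIntegral.integral_symm, neg_eq_zero]
  apply intervalIntegral.integral_zero_ae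
  refine Filter.Eventually.of_forall fun t ht => ?_
  rw [uIoc_of_le hx] at ht
  exact G1_left ht.2

lemma G1_right {x : ℝ} (hx : 1 ≤ x) : G1 x = G1 1 := by
  unfold G1
  rw [← intervalIntegral.integral_add_adjacent_intervals (b := 1)
    (beta_contDiff.continuous.intervalIntegrable _ _)
    (beta_contDiff.continuous.intervalIntegrable _ _)]
  rw [add_eq_left]
  apply intervalIntegral.integral_zero_ae
  refine Filter.Eventually.of_forall fun t ht => ?_
  rw [uIoc_of_le hx] at ht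
  apply beta_out
  rw [abs_of_nonneg (by linarith [ht.1])]
  linarith [ht.1]

lemma G2_right {x : ℝ} (hx : 1 ≤ x) : G2 x = G2 1 + G1 1 * (x - 1) := by
  unfold G2
  rw [← intervalIntegral.integral_add_adjacent_intervals (b := 1)
    (G1_contDiff.continuous.intervalIntegrable _ _)
    (G1_contDiff.continuous.intervalIntegrable _ _)]
  congr 1
  have : (∫ t in (1 : ℝ)..x, G1 t) = ∫ t in (1 : ℝ)..x, G1 1 := by
    apply intervalIntegral.integral_congr
    intro t ht
    rw [uIcc_of_le hx] at ht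
    exact G1_right ht.1
  rw [this, intervalIntegral.integral_const, smul_eq_mul, mul_comm]

/-- the second difference: supported in `[0, 4]` -/
def B0 (x : ℝ) : ℝ := G2 (x - 1) - 2 * G2 (x - 2) + G2 (x - 3)
def B1 (x : ℝ) : ℝ := G1 (x - 1) - 2 * G1 (x - 2) + G1 (x - 3)
def B2 (x : ℝ) : ℝ := beta (x - 1) - 2 * beta (x - 2) + beta (x - 3)
def B3 (x : ℝ) : ℝ := beta1 (x - 1) - 2 * beta1 (x - 2) + beta1 (x - 3)

lemma B0_left {x : ℝ} (hx : x ≤ 0) : B0 x = 0 := by
  unfold B0; rw [G2_left (by linarith), G2_left (by linarith), G2_left (by linarith)]; ring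

lemma B0_right {x : ℝ} (hx : 4 ≤ x) : B0 x = 0 := by
  unfold B0
  rw [G2_right (x := x - 1) (by linarith), G2_right (x := x - 2) (by linarith),
    G2_right (x := x - 3) (by linarith)]
  ring

lemma shift_hasDeriv {f : ℝ → ℝ} {f' : ℝ} (a x : ℝ) (h : HasDerivAt f f' (x - a)) :
    HasDerivAt (fun y => f (y - a)) f' x := by
  have := h.comp x ((hasDerivAt_id x).sub_const a)
  simpa [Function.comp_def] using this

lemma B0_hasDeriv (x : ℝ) : HasDerivAt B0 (B1 x) x :=
  ((shift_hasDeriv 1 x (G2_hasDeriv _)).sub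
    ((shift_hasDeriv 2 x (G2_hasDeriv _)).const_mul 2)).add (shift_hasDeriv 3 x (G2_hasDeriv _))

lemma B1_hasDeriv (x : ℝ) : HasDerivAt B1 (B2 x) x :=
  ((shift_hasDeriv 1 x (G1_hasDeriv _)).sub
    ((shift_hasDeriv 2 x (G1_hasDeriv _)).const_mul 2)).add (shift_hasDeriv 3 x (G1_hasDeriv _))

lemma B2_hasDeriv (x : ℝ) : HasDerivAt B2 (B3 x) x :=
  ((shift_hasDeriv 1 x (beta_hasDeriv _)).sub
    ((shift_hasDeriv 2 x (beta_hasDeriv _)).const_mul 2)).add
      (shift_hasDeriv 3 x (beta_hasDeriv _))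

lemma contDiff_of_hasDeriv {f g : ℝ → ℝ} (h : ∀ x, HasDerivAt f (g x) x) (hg : ContDiff ℝ ∞ g) :
    ContDiff ℝ ∞ f := by
  rw [contDiff_infty_iff_deriv]
  refine ⟨fun x => (h x).differentiableAt, ?_⟩
  have : deriv f = g := funext fun x => (h x).deriv
  rwa [this]

lemma B3_contDiff : ContDiff ℝ ∞ B3 := by
  unfold B3
  have h : ∀ a : ℝ, ContDiff ℝ ∞ fun x : ℝ => beta1 (x - a) := fun a =>
    beta1_contDiff.comp (contDiff_id.sub contDiff_const)
  exact ((h 1).sub (contDiff_const.mul (h 2))).add (h 3)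

lemma B2_contDiff : ContDiff ℝ ∞ B2 := contDiff_of_hasDeriv B2_hasDeriv B3_contDiff
lemma B1_contDiff : ContDiff ℝ ∞ B1 := contDiff_of_hasDeriv B1_hasDeriv B2_contDiff
lemma B0_contDiff : ContDiff ℝ ∞ B0 := contDiff_of_hasDeriv B0_hasDeriv B1_contDiff

/-- a derivative vanishes outside `[0, 4]` if the function does -/
lemma deriv_out {f g : ℝ → ℝ} (h : ∀ x, HasDerivAt f (g x) x) (hg : Continuous g)
    (hf : ∀ x, x ≤ 0 ∨ 4 ≤ x → f x = 0) : ∀ x, x ≤ 0 ∨ 4 ≤ x → g x = 0 := by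
  have h1 : ∀ x, x < 0 ∨ 4 < x → g x = 0 := by
    intro x hx
    have hev : f =ᶠ[𝓝 x] fun _ => 0 := by
      rcases hx with hx | hx
      · filter_upwards [gt_mem_nhds hx] with y hy using hf y (Or.inl hy.le)
      · filter_upwards [lt_mem_nhds hx] with y hy using hf y (Or.inr hy.le)
    exact ((hasDerivAt_const x (0 : ℝ)).congr_of_eventuallyEq hev).unique (h x) |>.symm
  intro x hx
  rcases hx with hx | hx
  · have hcl : x ∈ closure (Iio (0 : ℝ)) := by rw [closure_Iio]; exact hx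
    have : closure (Iio (0 : ℝ)) ⊆ {y | g y = 0} :=
      closure_minimal (fun y hy => h1 y (Or.inl hy)) (isClosed_eq hg continuous_const)
    exact this hcl
  · have hcl : x ∈ closure (Ioi (4 : ℝ)) := by rw [closure_Ioi]; exact hx
    have : closure (Ioi (4 : ℝ)) ⊆ {y | g y = 0} :=
      closure_minimal (fun y hy => h1 y (Or.inr hy)) (isClosed_eq hg continuous_const)
    exact this hcl

lemma B0_out : ∀ x, x ≤ 0 ∨ 4 ≤ x → B0 x = 0 := fun _ h => h.elim B0_left B0_right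
lemma B1_out : ∀ x, x ≤ 0 ∨ 4 ≤ x → B1 x = 0 := deriv_out B0_hasDeriv B1_contDiff.continuous B0_out
lemma B2_out : ∀ x, x ≤ 0 ∨ 4 ≤ x → B2 x = 0 := deriv_out B1_hasDeriv B2_contDiff.continuous B1_out
lemma B3_out : ∀ x, x ≤ 0 ∨ 4 ≤ x → B3 x = 0 := deriv_out B2_hasDeriv B3_contDiff.continuous B2_out

/-- a continuous function with support in `[0, 4]` is bounded -/
lemma bounded_of_out {f : ℝ → ℝ} (hf : Continuous f) (h0 : ∀ x, x ≤ 0 ∨ 4 ≤ x → f x = 0) :
    ∃ C : ℝ, 0 < C ∧ ∀ x, |f x| ≤ C := by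
  obtain ⟨C, hC⟩ := isCompact_Icc.exists_bound_of_continuousOn (s := Icc (0 : ℝ) 4) hf.continuousOn
  refine ⟨max C 1, lt_max_of_lt_right one_pos, fun x => ?_⟩
  by_cases hx : 0 ≤ x ∧ x ≤ 4
  · exact (hC x hx).trans (le_max_left _ _)
  · rw [h0 x (by
      by_contra hcon
      push Not at hcon
      exact hx ⟨hcon.1.le, hcon.2.le⟩)]
    simp

/-- the alternating sum of translates -/
def alt (h : ℝ → ℝ) (M : ℕ) (x : ℝ) : ℝ := -∑ j ∈ Finset.range M, (-1 : ℝ) ^ j * h (x - j)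

lemma alt_bound {h : ℝ → ℝ} {C : ℝ} (hC0 : 0 ≤ C) (hC : ∀ x, |h x| ≤ C)
    (h0 : ∀ x, x ≤ 0 ∨ 4 ≤ x → h x = 0) (M : ℕ) (x : ℝ) : |alt h M x| ≤ 5 * C := by
  unfold alt
  rw [abs_neg]
  have hsub : ∑ j ∈ Finset.range M, (-1 : ℝ) ^ j * h (x - j) =
      ∑ j ∈ (Finset.range M).filter (fun j : ℕ => 0 < x - j ∧ x - j < 4),
        (-1 : ℝ) ^ j * h (x - j) := by
    rw [Finset.sum_filter]
    apply Finset.sum_congr rfl
    intro j _
    split_ifs with hj
    · rfl
    · rw [h0, mul_zero]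
      by_contra hcon
      push Not at hcon
      exact hj hcon
  rw [hsub]
  have hcard : ((Finset.range M).filter (fun j : ℕ => 0 < x - j ∧ x - j < 4)).card ≤ 5 := by
    have hs : (Finset.range M).filter (fun j : ℕ => 0 < x - j ∧ x - j < 4) ⊆
        Finset.Icc (⌈x⌉₊ - 4) ⌈x⌉₊ := by
      intro j hj
      rw [Finset.mem_filter] at hj
      rw [Finset.mem_Icc]
      constructor
      · have h1 : (x : ℝ) < j + 4 := by linarith [hj.2.2]
        have : ⌈x⌉₊ ≤ j + 4 := by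
          rw [Nat.ceil_le]; push_cast; linarith
        omega
      · have h1 : (j : ℝ) < x := by linarith [hj.2.1]
        exact_mod_cast (h1.le.trans (Nat.le_ceil x))
    refine (Finset.card_le_card hs).trans ?_
    rw [Nat.card_Icc]
    omega
  calc |∑ j ∈ (Finset.range M).filter (fun j : ℕ => 0 < x - j ∧ x - j < 4),
        (-1 : ℝ) ^ j * h (x - j)|
      ≤ ∑ j ∈ (Finset.range M).filter (fun j : ℕ => 0 < x - j ∧ x - j < 4),
        |(-1 : ℝ) ^ j * h (x - j)| := Finset.abs_sum_le_sum_abs _ _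
    _ ≤ ∑ j ∈ (Finset.range M).filter (fun j : ℕ => 0 < x - j ∧ x - j < 4), C := by
        apply Finset.sum_le_sum
        intro j _
        rw [abs_mul, abs_pow, abs_neg, abs_one, one_pow, one_mul]
        exact hC _
    _ = ((Finset.range M).filter (fun j : ℕ => 0 < x - j ∧ x - j < 4)).card * C := by
        rw [Finset.sum_const, nsmul_eq_mul]
    _ ≤ 5 * C := by
        apply mul_le_mul_of_nonneg_right _ hC0
        exact_mod_cast hcard

lemma alt_out {h : ℝ → ℝ} (h0 : ∀ x, x ≤ 0 ∨ 4 ≤ x → h x = 0) (M : ℕ) (x : ℝ)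
    (hx : x ≤ 0 ∨ (M : ℝ) + 3 ≤ x) : alt h M x = 0 := by
  unfold alt
  rw [neg_eq_zero]
  apply Finset.sum_eq_zero
  intro j hj
  rw [Finset.mem_range] at hj
  rw [h0, mul_zero]
  rcases hx with hx | hx
  · left
    have : (0 : ℝ) ≤ j := Nat.cast_nonneg j
    linarith
  · right
    have : (j : ℝ) + 1 ≤ M := by exact_mod_cast hj
    linarith

lemma alt_hasDeriv {f g : ℝ → ℝ} (h : ∀ x, HasDerivAt f (g x) x) (M : ℕ) (x : ℝ) :
    HasDerivAt (alt f M) (alt g M x) x := by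
  unfold alt
  apply HasDerivAt.fun_neg
  apply HasDerivAt.fun_sum
  intro j _
  exact (shift_hasDeriv (j : ℝ) x (h _)).const_mul _

lemma alt_contDiff {f : ℝ → ℝ} (h : ContDiff ℝ ∞ f) (M : ℕ) : ContDiff ℝ ∞ (alt f M) := by
  unfold alt
  apply ContDiff.neg
  apply ContDiff.sum
  intro j _
  exact contDiff_const.mul (h.comp (contDiff_id.sub contDiff_const))

/-- the coefficients of the alternating sum, extended by zero -/
def ee (M : ℕ) (j : ℤ) : ℝ := if 0 ≤ j ∧ j < M then (-1 : ℝ) ^ j.toNat else 0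

lemma sum_local {h : ℝ → ℝ} (h0 : ∀ x, 1 ≤ |x| → h x = 0) (M : ℕ) (n : ℤ) (s : ℝ) (hs0 : 0 ≤ s)
    (hs1 : s ≤ 1) :
    ∑ j ∈ Finset.range M, (-1 : ℝ) ^ j * h (s + n - j) =
      ee M n * h s + ee M (n + 1) * h (s - 1) := by
  have h1 : ∑ j ∈ Finset.range M, (-1 : ℝ) ^ j * h (s + n - j) =
      ∑ j ∈ Finset.range M, ((if (j : ℤ) = n then (-1 : ℝ) ^ j * h s else 0) +
        (if (j : ℤ) = n + 1 then (-1 : ℝ) ^ j * h (s - 1) else 0)) := by
    apply Finset.sum_congr rfl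
    intro j _
    by_cases e1 : (j : ℤ) = n
    · have e2 : ¬ ((j : ℤ) = n + 1) := by omega
      rw [if_pos e1, if_neg e2, add_zero]
      congr 2
      have : (j : ℝ) = n := by exact_mod_cast e1
      linarith
    · by_cases e2 : (j : ℤ) = n + 1
      · rw [if_neg e1, if_pos e2, zero_add]
        congr 2
        have : (j : ℝ) = n + 1 := by exact_mod_cast e2
        linarith
      · rw [if_neg e1, if_neg e2, h0, mul_zero, add_zero]
        rcases lt_or_gt_of_ne e1 with h | h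
        · have : (j : ℤ) + 1 ≤ n := by omega
          have : (j : ℝ) + 1 ≤ n := by exact_mod_cast this
          rw [abs_of_nonneg (by linarith)]
          linarith
        · have : n + 2 ≤ (j : ℤ) := by omega
          have : (n : ℝ) + 2 ≤ j := by exact_mod_cast this
          rw [abs_of_nonpos (by linarith)]
          linarith
  rw [h1, Finset.sum_add_distrib]
  have key : ∀ (n : ℤ) (c : ℝ), ∑ j ∈ Finset.range M, (if (j : ℤ) = n then (-1 : ℝ) ^ j * c else 0) =
      ee M n * c := by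
    intro n c
    unfold ee
    split_ifs with hn
    · rw [Finset.sum_eq_single n.toNat]
      · rw [if_pos (Int.toNat_of_nonneg hn.1)]
      · intro j _ hj
        rw [if_neg]
        intro h
        apply hj
        omega
      · intro h
        exfalso
        apply h
        rw [Finset.mem_range]
        omega
    · rw [zero_mul]
      apply Finset.sum_eq_zero
      intro j hj
      rw [if_neg]
      intro h
      rw [Finset.mem_range] at hj
      apply hn
      omega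
  rw [key, key]

/-- the coefficient of the bump number `i` -/
def uu (M : ℕ) (i : ℤ) : ℝ := -(ee M i - 2 * ee M (i - 1) + ee M (i - 2))

lemma alt_local {b : ℝ → ℝ} (h0 : ∀ x, 1 ≤ |x| → b x = 0) (M : ℕ) (i : ℤ) (s : ℝ) (hs0 : 0 ≤ s)
    (hs1 : s ≤ 1) :
    alt (fun x => b (x - 1) - 2 * b (x - 2) + b (x - 3)) M (1 + i + s) =
      uu M i * b s + uu M (i + 1) * b (s - 1) := by
  unfold alt
  have h1 : ∑ j ∈ Finset.range M, (-1 : ℝ) ^ j *
      (b (1 + i + s - j - 1) - 2 * b (1 + i + s - j - 2) + b (1 + i + s - j - 3)) =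
      ∑ j ∈ Finset.range M, (-1 : ℝ) ^ j * b (s + i - j) -
      2 * ∑ j ∈ Finset.range M, (-1 : ℝ) ^ j * b (s + (i - 1 : ℤ) - j) +
      ∑ j ∈ Finset.range M, (-1 : ℝ) ^ j * b (s + (i - 2 : ℤ) - j) := by
    rw [Finset.mul_sum, ← Finset.sum_sub_distrib, ← Finset.sum_add_distrib]
    apply Finset.sum_congr rfl
    intro j _
    have e1 : 1 + (i : ℝ) + s - j - 1 = s + i - j := by ring
    have e2 : 1 + (i : ℝ) + s - j - 2 = s + (i - 1 : ℤ) - j := by push_cast; ring
    have e3 : 1 + (i : ℝ) + s - j - 3 = s + (i - 2 : ℤ) - j := by push_cast; ring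
    rw [e1, e2, e3]
    ring
  show -(∑ j ∈ Finset.range M, (-1 : ℝ) ^ j *
      (b (1 + i + s - j - 1) - 2 * b (1 + i + s - j - 2) + b (1 + i + s - j - 3))) = _
  rw [h1, sum_local h0 M i s hs0 hs1, sum_local h0 M (i - 1) s hs0 hs1,
    sum_local h0 M (i - 2) s hs0 hs1]
  unfold uu
  have e1 : i + 1 - 1 = i := by ring
  have e2 : i - 1 + 1 = i := by ring
  have e3 : i + 1 - 2 = i - 1 := by ring
  have e4 : i - 2 + 1 = i - 1 := by ring
  rw [e1, e2, e3, e4]
  ring

lemma ee_val (M : ℕ) (j : ℤ) : ee M j = if 0 ≤ j ∧ j < M then (-1 : ℝ) ^ j else 0 := by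
  unfold ee
  split_ifs with h
  · obtain ⟨k, rfl⟩ := Int.eq_ofNat_of_zero_le h.1
    simp
  · rfl

/-- the signs and sizes of the coefficients -/
lemma uu_sign (M : ℕ) (hM : 2 ≤ M) (i : ℤ) (h0 : 0 ≤ i) (h1 : i ≤ M + 1) :
    1 ≤ (-1 : ℝ) ^ (i + 1) * uu M i ∧ (-1 : ℝ) ^ (i + 1) * uu M i ≤ 4 := by
  have hp : ∀ j : ℤ, (-1 : ℝ) ^ (j + 1) = -(-1) ^ j := by
    intro j; rw [zpow_add₀ (by norm_num)]; simp
  have hm1 : (-1 : ℝ) ^ (i - 1) = -(-1) ^ i := by
    have := hp (i - 1)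
    rw [sub_add_cancel] at this
    linarith
  have hm2 : (-1 : ℝ) ^ (i - 2) = (-1) ^ i := by
    have := hp (i - 2)
    have e : i - 2 + 1 = i - 1 := by ring
    rw [e, hm1] at this
    linarith
  have hsq : (-1 : ℝ) ^ i * (-1) ^ i = 1 := by
    rw [← mul_zpow]; norm_num
  have e : (-1 : ℝ) ^ (i + 1) * uu M i = (if 0 ≤ i ∧ i < (M : ℤ) then 1 else 0) +
      2 * (if 0 ≤ i - 1 ∧ i - 1 < (M : ℤ) then 1 else 0) +
      (if 0 ≤ i - 2 ∧ i - 2 < (M : ℤ) then 1 else 0) := by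
    unfold uu
    rw [ee_val, ee_val, ee_val, hp, hm1, hm2]
    split_ifs <;> first
      | linear_combination (4 : ℝ) * hsq
      | linear_combination (3 : ℝ) * hsq
      | linear_combination (2 : ℝ) * hsq
      | linear_combination (1 : ℝ) * hsq
      | simp
  rw [e]
  have hMz : (2 : ℤ) ≤ M := by exact_mod_cast hM
  split_ifs with a1 a2 a3 a3 a2 a3 a3 <;> norm_num <;> (exfalso; omega)

/-- the function with support in `[0, M + 3]` -/
def Psi (M : ℕ) : ℝ → ℝ := alt B0 M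
def Psi1 (M : ℕ) : ℝ → ℝ := alt B1 M
def Psi2 (M : ℕ) : ℝ → ℝ := alt B2 M
def Psi3 (M : ℕ) : ℝ → ℝ := alt B3 M

lemma beta1_out : ∀ x : ℝ, 1 ≤ |x| → beta1 x = 0 := by
  have h1 : ∀ x : ℝ, 1 < |x| → beta1 x = 0 := by
    intro x hx
    have hev : beta =ᶠ[𝓝 x] fun _ => 0 := by
      have : ∀ᶠ y in 𝓝 x, 1 < |y| := continuous_abs.continuousAt.eventually (lt_mem_nhds hx)
      filter_upwards [this] with y hy using beta_out hy.le
    exact ((hasDerivAt_const x (0 : ℝ)).congr_of_eventuallyEq hev).unique (beta_hasDeriv x) |>.symm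
  intro x hx
  rcases hx.lt_or_eq with hx | hx
  · exact h1 x hx
  · have hc : Continuous beta1 := beta1_contDiff.continuous
    rcases abs_eq (zero_le_one) |>.1 hx.symm with rfl | rfl
    · have hcl : (1 : ℝ) ∈ closure (Ioi (1 : ℝ)) := by rw [closure_Ioi]; exact self_mem_Ici
      have : closure (Ioi (1 : ℝ)) ⊆ {y | beta1 y = 0} :=
        closure_minimal (fun y (hy : 1 < y) => h1 y (lt_of_lt_of_le hy (le_abs_self y)))
          (isClosed_eq hc continuous_const)
      exact this hcl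
    · have hcl : (-1 : ℝ) ∈ closure (Iio (-1 : ℝ)) := by rw [closure_Iio]; exact self_mem_Iic
      have : closure (Iio (-1 : ℝ)) ⊆ {y | beta1 y = 0} :=
        closure_minimal (fun y (hy : y < -1) => h1 y (lt_of_lt_of_le (by linarith) (neg_le_abs y)))
          (isClosed_eq hc continuous_const)
      exact this hcl

lemma Psi2_local (M : ℕ) (i : ℤ) (s : ℝ) (hs0 : 0 ≤ s) (hs1 : s ≤ 1) :
    Psi2 M (1 + i + s) = uu M i * beta s + uu M (i + 1) * beta (s - 1) :=
  alt_local (fun _ h => beta_out h) M i s hs0 hs1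

lemma Psi3_local (M : ℕ) (i : ℤ) (s : ℝ) (hs0 : 0 ≤ s) (hs1 : s ≤ 1) :
    Psi3 M (1 + i + s) = uu M i * beta1 s + uu M (i + 1) * beta1 (s - 1) :=
  alt_local beta1_out M i s hs0 hs1

lemma Psi2_start (M : ℕ) (hM : 2 ≤ M) {x : ℝ} (h0 : 0 ≤ x) (h1 : x ≤ 1) : Psi2 M x ≤ 0 := by
  have h := Psi2_local M (-1) x h0 h1
  have e : (1 : ℝ) + ((-1 : ℤ) : ℝ) + x = x := by push_cast; ring
  rw [e] at h
  rw [h]
  have u1 : uu M (-1) = 0 := by
    unfold uu ee
    simp
  have u0 := (uu_sign M hM 0 le_rfl (by positivity)).1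
  have e0 : (-1 : ℝ) ^ ((0 : ℤ) + 1) = -1 := by simp
  rw [e0] at u0
  have e1 : (-1 : ℤ) + 1 = 0 := by norm_num
  rw [u1, e1]
  have := beta_nonneg (x - 1)
  nlinarith

lemma Psi2_end (M : ℕ) (hM : 2 ≤ M) (hE : Even M) {x : ℝ} (h0 : (M : ℝ) + 2 ≤ x)
    (h1 : x ≤ M + 3) : 0 ≤ Psi2 M x := by
  have h := Psi2_local M (M + 1) (x - (M + 2)) (by linarith) (by linarith)
  have e : (1 : ℝ) + ((M + 1 : ℤ) : ℝ) + (x - (M + 2)) = x := by push_cast; ring
  rw [e] at h
  rw [h]
  have u1 : uu M ((M : ℤ) + 1 + 1) = 0 := by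
    unfold uu ee
    have c1 : ¬ ((M : ℤ) + 1 + 1 < M) := by omega
    have c2 : ¬ ((M : ℤ) + 1 + 1 - 1 < M) := by omega
    have c3 : ¬ ((M : ℤ) + 1 + 1 - 2 < M) := by omega
    simp only [c1, c2, c3, and_false, if_false]
    ring
  have u0 := (uu_sign M hM (M + 1) (by positivity) le_rfl).1
  have e0 : (-1 : ℝ) ^ ((M : ℤ) + 1 + 1) = 1 := by
    rw [add_assoc, zpow_add₀ (by norm_num), zpow_natCast, hE.neg_one_pow]
    norm_num
  rw [e0, one_mul] at u0
  rw [u1]
  have := beta_nonneg (x - (M + 2))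
  nlinarith

/-- the one-parameter family of functions of the ring insertion -/
theorem bump_family : ∃ κ C : ℝ, 0 < κ ∧ 0 < C ∧ ∀ (M : ℕ), 2 ≤ M → Even M → ∀ p : ℝ, 0 < p →
    ∃ Φ Φ1 Φ2 Φ3 : ℝ → ℝ, ContDiff ℝ ∞ Φ ∧ (∀ x, HasDerivAt Φ (Φ1 x) x) ∧
      (∀ x, HasDerivAt Φ1 (Φ2 x) x) ∧ (∀ x, HasDerivAt Φ2 (Φ3 x) x) ∧
      (∀ x, Φ (-x) = -Φ x) ∧ (∀ x, Φ1 (-x) = Φ1 x) ∧ (∀ x, Φ2 (-x) = -Φ2 x) ∧
      (∀ x, Φ3 (-x) = Φ3 x) ∧
      (∀ x, |Φ x| ≤ C ∧ |Φ1 x| ≤ C ∧ |Φ2 x| ≤ C ∧ |Φ3 x| ≤ C) ∧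
      (∀ x, 0 ≤ x → x ≤ p ∨ p + M + 3 ≤ x → Φ x = 0 ∧ Φ1 x = 0 ∧ Φ2 x = 0 ∧ Φ3 x = 0) ∧
      (∀ x, p ≤ x → x ≤ p + 1 → Φ2 x ≤ 0) ∧
      (∀ x, p + M + 2 ≤ x → x ≤ p + M + 3 → 0 ≤ Φ2 x) ∧
      ∀ x, p + 1 ≤ x → x ≤ p + M + 2 → 1 / 2 ≤ |Φ2 x| ∨ κ ≤ |Φ3 x| := by
  obtain ⟨κ, hκ, hk⟩ := two_bumps
  obtain ⟨C0, hC0, hb0⟩ := bounded_of_out B0_contDiff.continuous B0_out
  obtain ⟨C1, hC1, hb1⟩ := bounded_of_out B1_contDiff.continuous B1_out
  obtain ⟨C2, hC2, hb2⟩ := bounded_of_out B2_contDiff.continuous B2_out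
  obtain ⟨C3, hC3, hb3⟩ := bounded_of_out B3_contDiff.continuous B3_out
  set C : ℝ := 10 * (C0 + C1 + C2 + C3) with hC
  refine ⟨κ, C, hκ, by positivity, ?_⟩
  intro M hM hE p hp
  have o0 := fun x hx => alt_out B0_out M x hx
  have o1 := fun x hx => alt_out B1_out M x hx
  have o2 := fun x hx => alt_out B2_out M x hx
  have o3 := fun x hx => alt_out B3_out M x hx
  have a0 := fun x => alt_bound hC0.le hb0 B0_out M x
  have a1 := fun x => alt_bound hC1.le hb1 B1_out M x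
  have a2 := fun x => alt_bound hC2.le hb2 B2_out M x
  have a3 := fun x => alt_bound hC3.le hb3 B3_out M x
  have refl_hasDeriv : ∀ {f : ℝ → ℝ} {f' : ℝ} (x : ℝ), HasDerivAt f f' (-x - p) →
      HasDerivAt (fun y => f (-y - p)) (-f') x := by
    intro f f' x h
    have h2 : HasDerivAt (fun y : ℝ => -y - p) (-1) x := (hasDerivAt_neg x).sub_const p
    have := h.comp x h2
    simpa [Function.comp_def] using this
  refine ⟨fun x => Psi M (x - p) - Psi M (-x - p), fun x => Psi1 M (x - p) + Psi1 M (-x - p),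
    fun x => Psi2 M (x - p) - Psi2 M (-x - p), fun x => Psi3 M (x - p) + Psi3 M (-x - p),
    ?_, ?_, ?_, ?_, ?_, ?_, ?_, ?_, ?_, ?_, ?_, ?_, ?_⟩
  · have h := alt_contDiff B0_contDiff M
    exact (h.comp (contDiff_id.sub contDiff_const)).sub (h.comp (contDiff_neg.sub contDiff_const))
  · intro x
    have h1 := shift_hasDeriv p x (alt_hasDeriv B0_hasDeriv M (x - p))
    have h2 := refl_hasDeriv x (alt_hasDeriv B0_hasDeriv M (-x - p))
    have := h1.sub h2
    rw [sub_neg_eq_add] at this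
    exact this
  · intro x
    have h1 := shift_hasDeriv p x (alt_hasDeriv B1_hasDeriv M (x - p))
    have h2 := refl_hasDeriv x (alt_hasDeriv B1_hasDeriv M (-x - p))
    have := h1.add h2
    rw [← sub_eq_add_neg] at this
    exact this
  · intro x
    have h1 := shift_hasDeriv p x (alt_hasDeriv B2_hasDeriv M (x - p))
    have h2 := refl_hasDeriv x (alt_hasDeriv B2_hasDeriv M (-x - p))
    have := h1.sub h2
    rw [sub_neg_eq_add] at this
    exact this
  · intro x; simp only [neg_neg]; ring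
  · intro x; simp only [neg_neg]; ring
  · intro x; simp only [neg_neg]; ring
  · intro x; simp only [neg_neg]; ring
  · intro x
    refine ⟨?_, ?_, ?_, ?_⟩
    · refine (abs_sub _ _).trans ?_
      have := a0 (x - p); have := a0 (-x - p)
      simp only [Psi]
      nlinarith
    · refine (abs_add_le _ _).trans ?_
      have := a1 (x - p); have := a1 (-x - p)
      simp only [Psi1]
      nlinarith
    · refine (abs_sub _ _).trans ?_
      have := a2 (x - p); have := a2 (-x - p)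
      simp only [Psi2]
      nlinarith
    · refine (abs_add_le _ _).trans ?_
      have := a3 (x - p); have := a3 (-x - p)
      simp only [Psi3]
      nlinarith
  · intro x hx0 hx
    have hx' : x - p ≤ 0 ∨ (M : ℝ) + 3 ≤ x - p := by
      rcases hx with h | h
      · left; linarith
      · right; linarith
    have hn : -x - p ≤ 0 ∨ (M : ℝ) + 3 ≤ -x - p := Or.inl (by linarith)
    simp only [Psi, Psi1, Psi2, Psi3]
    rw [o0 _ hx', o0 _ hn, o1 _ hx', o1 _ hn, o2 _ hx', o2 _ hn, o3 _ hx', o3 _ hn]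
    simp
  · intro x hx hx'
    have hn : Psi2 M (-x - p) = 0 := o2 _ (Or.inl (by linarith))
    show Psi2 M (x - p) - Psi2 M (-x - p) ≤ 0
    rw [hn, sub_zero]
    exact Psi2_start M hM (by linarith) (by linarith)
  · intro x hx hx'
    have hn : Psi2 M (-x - p) = 0 := o2 _ (Or.inl (by
      have : (0 : ℝ) ≤ M := Nat.cast_nonneg M
      linarith))
    show 0 ≤ Psi2 M (x - p) - Psi2 M (-x - p)
    rw [hn, sub_zero]
    exact Psi2_end M hM hE (by linarith) (by linarith)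
  · intro x hx hx'
    have hn2 : Psi2 M (-x - p) = 0 := o2 _ (Or.inl (by linarith))
    have hn3 : Psi3 M (-x - p) = 0 := o3 _ (Or.inl (by linarith))
    show 1 / 2 ≤ |Psi2 M (x - p) - Psi2 M (-x - p)| ∨ κ ≤ |Psi3 M (x - p) + Psi3 M (-x - p)|
    rw [hn2, hn3, sub_zero, add_zero]
    -- write `x - p = 1 + i + s`
    obtain ⟨i, s, hi0, hi1, hs0, hs1, hxs⟩ : ∃ (i : ℤ) (s : ℝ), 0 ≤ i ∧ i ≤ M ∧ 0 ≤ s ∧ s ≤ 1 ∧
        x - p = 1 + i + s := by
      have hf0 : 0 ≤ ⌊x - p - 1⌋ := Int.floor_nonneg.2 (by linarith)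
      have hfl := Int.floor_le (x - p - 1)
      have hfl' := Int.lt_floor_add_one (x - p - 1)
      rcases le_or_gt ⌊x - p - 1⌋ (M : ℤ) with h | h
      · exact ⟨⌊x - p - 1⌋, x - p - 1 - ⌊x - p - 1⌋, hf0, h, by linarith, by linarith, by ring⟩
      · have h2 : (M : ℤ) + 1 ≤ ⌊x - p - 1⌋ := h
        have h3 : (((M : ℤ) + 1 : ℤ) : ℝ) ≤ ((⌊x - p - 1⌋ : ℤ) : ℝ) := by exact_mod_cast h2
        push_cast at h3
        exact ⟨M, 1, by positivity, le_rfl, by norm_num, le_rfl, by push_cast; linarith⟩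
    have hu := uu_sign M hM i hi0 (by linarith)
    have hu' := uu_sign M hM (i + 1) (by linarith) (by linarith)
    set σ : ℝ := (-1 : ℝ) ^ (i + 1) with hσ
    have hσ2 : σ * σ = 1 := by rw [hσ, ← mul_zpow]; norm_num
    have hσ1 : |σ| = 1 := by
      have : |σ| * |σ| = 1 := by rw [← abs_mul, hσ2, abs_one]
      nlinarith [abs_nonneg σ]
    have hs' : (-1 : ℝ) ^ (i + 1 + 1) = -σ := by
      rw [zpow_add₀ (by norm_num : (-1 : ℝ) ≠ 0) (i + 1) 1, zpow_one, ← hσ]; ring
    rw [hs'] at hu'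
    have e2 : Psi2 M (x - p) = σ * (σ * uu M i * beta s - -σ * uu M (i + 1) * beta (s - 1)) := by
      rw [hxs, Psi2_local M i s hs0 hs1]
      linear_combination (-(uu M i * beta s) - uu M (i + 1) * beta (s - 1)) * hσ2
    have e3 : Psi3 M (x - p) =
        σ * (σ * uu M i * beta1 s - -σ * uu M (i + 1) * beta1 (s - 1)) := by
      rw [hxs, Psi3_local M i s hs0 hs1]
      linear_combination (-(uu M i * beta1 s) - uu M (i + 1) * beta1 (s - 1)) * hσ2
    rw [e2, e3, abs_mul, abs_mul, hσ1, one_mul, one_mul]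
    exact hk _ _ s hu.1 hu.2 hu'.1 hu'.2 hs0 hs1

end

end Pool.Agent.H30.Hedge
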