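import Mathlib

/-!
# Hedgehogs in `ℝ³` and cuspidal edges

A function on the unit sphere is given by its values on the unit vectors of `V3`; only the
functions `x ↦ h (x / |x|)` are used.
-/

open Set Filter Topology
open scoped ContDiff

namespace Pool.Agent.H30.Hedge

noncomputable section

/-- Euclidean space of dimension three -/
abbrev V3 := EuclideanSpace ℝ (Fin 3)

/-- `h` is a `C^∞` function on the unit sphere: its extension `x ↦ h (x / |x|)` is `C^∞` off the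
origin. -/
def SmoothOnSphere (h : V3 → ℝ) : Prop := ContDiffOn ℝ ∞ (fun x => h (‖x‖⁻¹ • x)) {0}ᶜ

/-- `x_h(u) = h(u) u + ∇ h(u)` for a unit vector `u`; the gradient of `h` on the sphere at `u` is the
gradient of the extension `x ↦ h (x / |x|)` at `u`. -/
def hedgehog (h : V3 → ℝ) (u : V3) : V3 := h u • u + gradient (fun x => h (‖x‖⁻¹ • x)) u

/-- the unit vector `u` is a singular point: `x_h` is not an immersion at `u`, its differential
vanishes on a nonzero tangent vector `v` of the sphere at `u` -/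
def SingularAt (h : V3 → ℝ) (u : V3) : Prop :=
  ∃ v : V3, v ≠ 0 ∧ inner ℝ u v = 0 ∧ fderiv ℝ (fun x => hedgehog h (‖x‖⁻¹ • x)) u v = 0

/-- the germ of `x_h` at the unit vector `u` is a cuspidal edge: there are a smooth regular
parametrisation `φ` of the sphere near `u`, `φ(0) = u`, and a local diffeomorphism `ψ` of `ℝ³` at
`x_h(u)` with `ψ (x_h (φ (s, t))) = (s, t ^ 2, t ^ 3)` near `(0, 0)` -/
def CuspidalEdgeAt (h : V3 → ℝ) (u : V3) : Prop :=
  ∃ (φ : ℝ × ℝ → V3) (ψ : V3 → ℝ × ℝ × ℝ),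
    ContDiffAt ℝ ∞ φ 0 ∧ φ 0 = u ∧ (∀ᶠ p in 𝓝 (0 : ℝ × ℝ), ‖φ p‖ = 1) ∧
    Function.Injective (fderiv ℝ φ 0) ∧
    ContDiffAt ℝ ∞ ψ (hedgehog h u) ∧ Function.Bijective (fderiv ℝ ψ (hedgehog h u)) ∧
    ∀ᶠ p in 𝓝 (0 : ℝ × ℝ), ψ (hedgehog h (φ p)) = (p.1, p.2 ^ 2, p.2 ^ 3)

end

end Pool.Agent.H30.Hedge
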