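import Mathlib

/-!
# Derivatives up to the third order of `f + ε ^ 2 * lam * Φ (F / ε)`
-/

open Set Filter Topology
open scoped ContDiff

namespace Pool.Agent.H30.Hedge

noncomputable section

variable {E : Type*} [NormedAddCommGroup E] [NormedSpace ℝ E]

/-- the second derivative as a bilinear form -/
def H2 (f : E → ℝ) (x : E) (v w : E) : ℝ := fderiv ℝ (fderiv ℝ f) x v w

/-- the third derivative as a trilinear form -/
def H3 (f : E → ℝ) (x : E) (u v w : E) : ℝ := fderiv ℝ (fderiv ℝ (fderiv ℝ f)) x u v w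

section Line

variable {F : Type*} [NormedAddCommGroup F] [NormedSpace ℝ F]

lemma line_hasDeriv {G : E → F} {z k : E} (hG : DifferentiableAt ℝ G z) :
    HasDerivAt (fun s : ℝ => G (z + s • k)) (fderiv ℝ G z k) 0 := by
  have h1 : HasDerivAt (fun s : ℝ => z + s • k) k 0 := by
    simpa using ((hasDerivAt_id (0 : ℝ)).smul_const k).const_add z
  have h2 : HasFDerivAt G (fderiv ℝ G z) (z + (0 : ℝ) • k) := by
    simpa using hG.hasFDerivAt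
  exact h2.comp_hasDerivAt (0 : ℝ) h1

end Line

variable {U : Set E}

lemma diff0 (hU : IsOpen U) {f : E → ℝ} (hf : ContDiffOn ℝ 3 f U) {z : E} (hz : z ∈ U) :
    DifferentiableAt ℝ f z :=
  (hf.contDiffAt (hU.mem_nhds hz)).differentiableAt (by norm_num)

lemma contDiffOn1 (hU : IsOpen U) {f : E → ℝ} (hf : ContDiffOn ℝ 3 f U) :
    ContDiffOn ℝ 2 (fderiv ℝ f) U :=
  hf.fderiv_of_isOpen hU (by norm_num)

lemma contDiffOn2 (hU : IsOpen U) {f : E → ℝ} (hf : ContDiffOn ℝ 3 f U) :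
    ContDiffOn ℝ 1 (fderiv ℝ (fderiv ℝ f)) U :=
  (contDiffOn1 hU hf).fderiv_of_isOpen hU (by norm_num)

lemma diff1 (hU : IsOpen U) {f : E → ℝ} (hf : ContDiffOn ℝ 3 f U) {z : E} (hz : z ∈ U) :
    DifferentiableAt ℝ (fderiv ℝ f) z :=
  ((contDiffOn1 hU hf).contDiffAt (hU.mem_nhds hz)).differentiableAt (by norm_num)

lemma diff2 (hU : IsOpen U) {f : E → ℝ} (hf : ContDiffOn ℝ 3 f U) {z : E} (hz : z ∈ U) :
    DifferentiableAt ℝ (fderiv ℝ (fderiv ℝ f)) z :=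
  ((contDiffOn2 hU hf).contDiffAt (hU.mem_nhds hz)).differentiableAt (by norm_num)

lemma l0 (hU : IsOpen U) {f : E → ℝ} (hf : ContDiffOn ℝ 3 f U) {z k : E} (hz : z ∈ U) :
    HasDerivAt (fun s : ℝ => f (z + s • k)) (fderiv ℝ f z k) 0 := line_hasDeriv (diff0 hU hf hz)

lemma l1 (hU : IsOpen U) {f : E → ℝ} (hf : ContDiffOn ℝ 3 f U) {z k : E} (hz : z ∈ U) :
    HasDerivAt (fun s : ℝ => fderiv ℝ f (z + s • k) k) (H2 f z k k) 0 := by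
  have h := line_hasDeriv (k := k) (diff1 hU hf hz)
  have := h.clm_apply (hasDerivAt_const (0 : ℝ) k)
  simpa [H2] using this

lemma l2 (hU : IsOpen U) {f : E → ℝ} (hf : ContDiffOn ℝ 3 f U) {z k : E} (hz : z ∈ U) :
    HasDerivAt (fun s : ℝ => H2 f (z + s • k) k k) (H3 f z k k k) 0 := by
  have h := line_hasDeriv (F := E →L[ℝ] E →L[ℝ] ℝ) (k := k) (diff2 hU hf hz)
  have h1 := h.clm_apply (hasDerivAt_const (0 : ℝ) k)
  have h2 := h1.clm_apply (hasDerivAt_const (0 : ℝ) k)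
  simpa [H2, H3] using h2

lemma near_line (hU : IsOpen U) {z : E} (k : E) (hz : z ∈ U) : ∀ᶠ s : ℝ in 𝓝 0, z + s • k ∈ U := by
  have hc : ContinuousAt (fun s : ℝ => z + s • k) 0 := by fun_prop
  apply hc.eventually_mem
  simpa using hU.mem_nhds hz

/-! one variable formulas -/

section OneVar

variable {c c1 c2 a a1 a2 b b1 b2 Φ Φ1 Φ2 Φ3 : ℝ → ℝ} {c1' c2' c3' a1' a2' a3' b1' b2' b3' ε : ℝ}

lemma comp_eps {Ψ Ψ' : ℝ → ℝ} (h : ∀ x, HasDerivAt Ψ (Ψ' x) x)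
    (hb : HasDerivAt b b1' 0) :
    HasDerivAt (fun s => Ψ (b s / ε)) (Ψ' (b 0 / ε) * (b1' / ε)) 0 :=
  (h (b 0 / ε)).comp 0 (hb.div_const ε)

lemma one1 (hε : ε ≠ 0) (h0 : ∀ x, HasDerivAt Φ (Φ1 x) x) (hc : HasDerivAt c c1' 0)
    (ha : HasDerivAt a a1' 0) (hb : HasDerivAt b b1' 0) :
    HasDerivAt (fun s => c s + ε ^ 2 * a s * Φ (b s / ε))
      (c1' + ε ^ 2 * a1' * Φ (b 0 / ε) + ε * a 0 * Φ1 (b 0 / ε) * b1') 0 := by
  have h : HasDerivAt (fun s => c s + ε ^ 2 * a s * Φ (b s / ε)) _ 0 :=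
    hc.add ((ha.const_mul (ε ^ 2)).mul (comp_eps h0 hb))
  refine h.congr_deriv ?_
  field_simp
  ring

lemma one2 (hε : ε ≠ 0) (h0 : ∀ x, HasDerivAt Φ (Φ1 x) x) (h1 : ∀ x, HasDerivAt Φ1 (Φ2 x) x)
    (hc1 : HasDerivAt c1 c2' 0) (ha : HasDerivAt a a1' 0) (ha1 : HasDerivAt a1 a2' 0)
    (hb : HasDerivAt b b1' 0) (hb1 : HasDerivAt b1 b2' 0) (ea : a1 0 = a1') (eb : b1 0 = b1') :
    HasDerivAt (fun s => c1 s + ε ^ 2 * a1 s * Φ (b s / ε) + ε * a s * Φ1 (b s / ε) * b1 s)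
      (c2' + ε ^ 2 * a2' * Φ (b 0 / ε) + 2 * ε * a1' * Φ1 (b 0 / ε) * b1' +
        ε * a 0 * Φ1 (b 0 / ε) * b2' + a 0 * Φ2 (b 0 / ε) * b1' ^ 2) 0 := by
  have h : HasDerivAt (fun s => c1 s + ε ^ 2 * a1 s * Φ (b s / ε) +
      ε * a s * Φ1 (b s / ε) * b1 s) _ 0 :=
    (hc1.add ((ha1.const_mul (ε ^ 2)).mul (comp_eps h0 hb))).add
    (((ha.const_mul ε).mul (comp_eps h1 hb)).mul hb1)
  refine h.congr_deriv ?_
  simp only [Pi.mul_apply]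
  rw [ea, eb]
  field_simp
  ring

lemma one3 (hε : ε ≠ 0) (h0 : ∀ x, HasDerivAt Φ (Φ1 x) x) (h1 : ∀ x, HasDerivAt Φ1 (Φ2 x) x)
    (h2 : ∀ x, HasDerivAt Φ2 (Φ3 x) x)
    (hc2 : HasDerivAt c2 c3' 0) (ha : HasDerivAt a a1' 0) (ha1 : HasDerivAt a1 a2' 0)
    (ha2 : HasDerivAt a2 a3' 0)
    (hb : HasDerivAt b b1' 0) (hb1 : HasDerivAt b1 b2' 0) (hb2 : HasDerivAt b2 b3' 0)
    (ea : a1 0 = a1') (eb : b1 0 = b1') (ea2 : a2 0 = a2') (eb2 : b2 0 = b2') :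
    HasDerivAt (fun s => c2 s + ε ^ 2 * a2 s * Φ (b s / ε) + 2 * ε * a1 s * Φ1 (b s / ε) * b1 s +
        ε * a s * Φ1 (b s / ε) * b2 s + a s * Φ2 (b s / ε) * b1 s ^ 2)
      (c3' + ε ^ 2 * a3' * Φ (b 0 / ε) + 3 * ε * a2' * Φ1 (b 0 / ε) * b1' +
        3 * ε * a1' * Φ1 (b 0 / ε) * b2' + 3 * a1' * Φ2 (b 0 / ε) * b1' ^ 2 +
        ε * a 0 * Φ1 (b 0 / ε) * b3' + 3 * a 0 * Φ2 (b 0 / ε) * b1' * b2' +
        a 0 * Φ3 (b 0 / ε) * b1' ^ 3 / ε) 0 := by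
  have h : HasDerivAt (fun s => c2 s + ε ^ 2 * a2 s * Φ (b s / ε) +
      2 * ε * a1 s * Φ1 (b s / ε) * b1 s +
        ε * a s * Φ1 (b s / ε) * b2 s + a s * Φ2 (b s / ε) * b1 s ^ 2) _ 0 :=
    (((hc2.add ((ha2.const_mul (ε ^ 2)).mul (comp_eps h0 hb))).add
    (((ha1.const_mul (2 * ε)).mul (comp_eps h1 hb)).mul hb1)).add
    (((ha.const_mul ε).mul (comp_eps h1 hb)).mul hb2)).add
    ((ha.mul (comp_eps h2 hb)).mul (hb1.pow 2))
  refine h.congr_deriv ?_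
  simp only [Pi.mul_apply, Pi.pow_apply]
  rw [ea, eb, ea2, eb2]
  push_cast
  field_simp
  ring

end OneVar

/-- the perturbed function -/
def pert (f F lam : E → ℝ) (Φ : ℝ → ℝ) (ε : ℝ) (x : E) : ℝ := f x + ε ^ 2 * lam x * Φ (F x / ε)

variable {f F lam : E → ℝ} {Φ Φ1 Φ2 Φ3 : ℝ → ℝ} {ε : ℝ}

lemma pert_contDiffOn (hf : ContDiffOn ℝ 3 f U) (hF : ContDiffOn ℝ 3 F U)
    (hl : ContDiffOn ℝ 3 lam U) (hΦ : ContDiff ℝ 3 Φ) : ContDiffOn ℝ 3 (pert f F lam Φ ε) U := by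
  unfold pert
  exact hf.add ((contDiffOn_const.mul hl).mul (hΦ.comp_contDiffOn (hF.div_const ε)))

lemma pert_D1 (hU : IsOpen U) (hf : ContDiffOn ℝ 3 f U) (hF : ContDiffOn ℝ 3 F U)
    (hl : ContDiffOn ℝ 3 lam U) (hΦ : ContDiff ℝ 3 Φ) (hε : ε ≠ 0)
    (h0 : ∀ x, HasDerivAt Φ (Φ1 x) x) {z : E} (hz : z ∈ U) (k : E) :
    fderiv ℝ (pert f F lam Φ ε) z k = fderiv ℝ f z k + ε ^ 2 * fderiv ℝ lam z k * Φ (F z / ε) +
      ε * lam z * Φ1 (F z / ε) * fderiv ℝ F z k := by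
  have h1 := l0 (k := k) hU (pert_contDiffOn (ε := ε) hf hF hl hΦ) hz
  have h2 := one1 hε h0 (l0 (k := k) hU hf hz) (l0 (k := k) hU hl hz) (l0 (k := k) hU hF hz)
  have := h1.unique h2
  simpa using this

lemma pert_D2 (hU : IsOpen U) (hf : ContDiffOn ℝ 3 f U) (hF : ContDiffOn ℝ 3 F U)
    (hl : ContDiffOn ℝ 3 lam U) (hΦ : ContDiff ℝ 3 Φ) (hε : ε ≠ 0)
    (h0 : ∀ x, HasDerivAt Φ (Φ1 x) x) (h1 : ∀ x, HasDerivAt Φ1 (Φ2 x) x) {z : E} (hz : z ∈ U)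
    (k : E) :
    H2 (pert f F lam Φ ε) z k k = H2 f z k k + ε ^ 2 * H2 lam z k k * Φ (F z / ε) +
      2 * ε * fderiv ℝ lam z k * Φ1 (F z / ε) * fderiv ℝ F z k +
      ε * lam z * Φ1 (F z / ε) * H2 F z k k + lam z * Φ2 (F z / ε) * fderiv ℝ F z k ^ 2 := by
  have e1 := l1 (k := k) hU (pert_contDiffOn (ε := ε) hf hF hl hΦ) hz
  have hev : (fun s : ℝ => fderiv ℝ (pert f F lam Φ ε) (z + s • k) k) =ᶠ[𝓝 0] fun s =>
      fderiv ℝ f (z + s • k) k + ε ^ 2 * fderiv ℝ lam (z + s • k) k * Φ (F (z + s • k) / ε) +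
      ε * lam (z + s • k) * Φ1 (F (z + s • k) / ε) * fderiv ℝ F (z + s • k) k := by
    filter_upwards [near_line hU k hz] with s hs
    exact pert_D1 hU hf hF hl hΦ hε h0 hs k
  have e2 := one2 hε h0 h1 (l1 (k := k) hU hf hz) (l0 (k := k) hU hl hz) (l1 (k := k) hU hl hz)
    (l0 (k := k) hU hF hz) (l1 (k := k) hU hF hz) (by simp) (by simp)
  have := (e2.congr_of_eventuallyEq hev).unique e1
  simpa using this.symm

lemma pert_D3 (hU : IsOpen U) (hf : ContDiffOn ℝ 3 f U) (hF : ContDiffOn ℝ 3 F U)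
    (hl : ContDiffOn ℝ 3 lam U) (hΦ : ContDiff ℝ 3 Φ) (hε : ε ≠ 0)
    (h0 : ∀ x, HasDerivAt Φ (Φ1 x) x) (h1 : ∀ x, HasDerivAt Φ1 (Φ2 x) x)
    (h2 : ∀ x, HasDerivAt Φ2 (Φ3 x) x) {z : E} (hz : z ∈ U) (k : E) :
    H3 (pert f F lam Φ ε) z k k k = H3 f z k k k + ε ^ 2 * H3 lam z k k k * Φ (F z / ε) +
      3 * ε * H2 lam z k k * Φ1 (F z / ε) * fderiv ℝ F z k +
      3 * ε * fderiv ℝ lam z k * Φ1 (F z / ε) * H2 F z k k +
      3 * fderiv ℝ lam z k * Φ2 (F z / ε) * fderiv ℝ F z k ^ 2 +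
      ε * lam z * Φ1 (F z / ε) * H3 F z k k k +
      3 * lam z * Φ2 (F z / ε) * fderiv ℝ F z k * H2 F z k k +
      lam z * Φ3 (F z / ε) * fderiv ℝ F z k ^ 3 / ε := by
  have e1 := l2 (k := k) hU (pert_contDiffOn (ε := ε) hf hF hl hΦ) hz
  have hev : (fun s : ℝ => H2 (pert f F lam Φ ε) (z + s • k) k k) =ᶠ[𝓝 0] fun s =>
      H2 f (z + s • k) k k + ε ^ 2 * H2 lam (z + s • k) k k * Φ (F (z + s • k) / ε) +
      2 * ε * fderiv ℝ lam (z + s • k) k * Φ1 (F (z + s • k) / ε) * fderiv ℝ F (z + s • k) k +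
      ε * lam (z + s • k) * Φ1 (F (z + s • k) / ε) * H2 F (z + s • k) k k +
      lam (z + s • k) * Φ2 (F (z + s • k) / ε) * fderiv ℝ F (z + s • k) k ^ 2 := by
    filter_upwards [near_line hU k hz] with s hs
    exact pert_D2 hU hf hF hl hΦ hε h0 h1 hs k
  have e2 := one3 hε h0 h1 h2 (l2 (k := k) hU hf hz) (l0 (k := k) hU hl hz)
    (l1 (k := k) hU hl hz) (l2 (k := k) hU hl hz)
    (l0 (k := k) hU hF hz) (l1 (k := k) hU hF hz) (l2 (k := k) hU hF hz)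
    (by simp) (by simp) (by simp) (by simp)
  have := (e2.congr_of_eventuallyEq hev).unique e1
  simpa using this.symm

lemma H2_symm (hU : IsOpen U) (hf : ContDiffOn ℝ 3 f U) {z : E} (hz : z ∈ U) (v w : E) :
    H2 f z v w = H2 f z w v :=
  ((hf.contDiffAt (hU.mem_nhds hz)).isSymmSndFDerivAt (by simp; norm_num)) v w

lemma H2_add_left (f : E → ℝ) (z u v w : E) : H2 f z (u + v) w = H2 f z u w + H2 f z v w := by
  simp [H2]

lemma H2_add_right (f : E → ℝ) (z u v w : E) : H2 f z u (v + w) = H2 f z u v + H2 f z u w := by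
  simp [H2]

lemma H2_smul_left (f : E → ℝ) (z : E) (c : ℝ) (v w : E) : H2 f z (c • v) w = c * H2 f z v w := by
  simp [H2]

lemma H2_smul_right (f : E → ℝ) (z : E) (c : ℝ) (v w : E) :
    H2 f z v (c • w) = c * H2 f z v w := by
  simp [H2]

/-- the mixed second derivative -/
lemma pert_mixed (hU : IsOpen U) (hf : ContDiffOn ℝ 3 f U) (hF : ContDiffOn ℝ 3 F U)
    (hl : ContDiffOn ℝ 3 lam U) (hΦ : ContDiff ℝ 3 Φ) (hε : ε ≠ 0)
    (h0 : ∀ x, HasDerivAt Φ (Φ1 x) x) (h1 : ∀ x, HasDerivAt Φ1 (Φ2 x) x) {z : E} (hz : z ∈ U)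
    (k t : E) :
    H2 (pert f F lam Φ ε) z k t = H2 f z k t + ε ^ 2 * H2 lam z k t * Φ (F z / ε) +
      ε * Φ1 (F z / ε) * (fderiv ℝ lam z k * fderiv ℝ F z t + fderiv ℝ lam z t * fderiv ℝ F z k) +
      ε * lam z * Φ1 (F z / ε) * H2 F z k t +
      lam z * Φ2 (F z / ε) * (fderiv ℝ F z k * fderiv ℝ F z t) := by
  have hp := pert_contDiffOn (ε := ε) hf hF hl hΦ
  have e1 := pert_D2 hU hf hF hl hΦ hε h0 h1 hz k
  have e2 := pert_D2 hU hf hF hl hΦ hε h0 h1 hz t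
  have e3 := pert_D2 hU hf hF hl hΦ hε h0 h1 hz (k + t)
  simp only [H2_add_left, H2_add_right, map_add] at e3
  rw [H2_symm hU hp hz t k, H2_symm hU hf hz t k, H2_symm hU hl hz t k, H2_symm hU hF hz t k] at e3
  rw [e1, e2] at e3
  linear_combination e3 / 2

end

end Pool.Agent.H30.Hedge
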