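import Mathlib
import Pool.Agent.H30.Hedge.Formula

/-!
# Functions which are homogeneous of degree one, and their affine charts
-/

open Set Filter Topology
open scoped ContDiff

namespace Pool.Agent.H30.Hedge

noncomputable section

variable {E : Type*} [NormedAddCommGroup E] [NormedSpace ℝ E]

set_option maxSynthPendingDepth 3

section general

variable {U : Set E} {f : E → ℝ}

lemma smooth3 (hf : ContDiffOn ℝ ∞ f U) : ContDiffOn ℝ 3 f U := by
  exact_mod_cast contDiffOn_infty.1 hf 3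

lemma H2_eq {x : E} (h : DifferentiableAt ℝ (fderiv ℝ f) x) (v w : E) :
    H2 f x v w = fderiv ℝ (fun z => fderiv ℝ f z w) x v := by
  rw [fderiv_clm_apply h (differentiableAt_const w)]
  simp [H2]

lemma H3_eq {x : E} (h : DifferentiableAt ℝ (fderiv ℝ (fderiv ℝ f)) x) (u v w : E) :
    H3 f x u v w = fderiv ℝ (fun z => H2 f z v w) x u := by
  unfold H2
  have h1 : DifferentiableAt ℝ (fun z => fderiv ℝ (fderiv ℝ f) z v) x :=
    h.clm_apply (differentiableAt_const v)
  rw [fderiv_clm_apply h1 (differentiableAt_const w),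
    fderiv_clm_apply h (differentiableAt_const v)]
  simp [H3]

lemma H3_symm_right (hU : IsOpen U) (hf : ContDiffOn ℝ 3 f U) {x : E} (hx : x ∈ U) (u v w : E) :
    H3 f x u v w = H3 f x u w v := by
  rw [H3_eq (diff2 hU hf hx), H3_eq (diff2 hU hf hx)]
  congr 1
  apply Filter.EventuallyEq.fderiv_eq
  filter_upwards [hU.mem_nhds hx] with z hz
  exact H2_symm hU hf hz v w

lemma H3_symm_left (hU : IsOpen U) (hf : ContDiffOn ℝ 3 f U) {x : E} (hx : x ∈ U) (u v w : E) :
    H3 f x u v w = H3 f x v u w := by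
  have h1 : ContDiffAt ℝ 2 (fderiv ℝ f) x := (contDiffOn1 hU hf).contDiffAt (hU.mem_nhds hx)
  have h2 : IsSymmSndFDerivAt ℝ (fderiv ℝ f) x := h1.isSymmSndFDerivAt (by simp)
  unfold H3
  rw [h2 u v]

lemma H3_add_left (x u u' v w : E) : H3 f x (u + u') v w = H3 f x u v w + H3 f x u' v w := by
  simp [H3]

lemma H3_smul_left (x u v w : E) (c : ℝ) : H3 f x (c • u) v w = c * H3 f x u v w := by
  simp [H3]

/-- cubic form of a sum, if everything mixed vanishes -/
lemma H3_add_of (hU : IsOpen U) (hf : ContDiffOn ℝ 3 f U) {x : E} (hx : x ∈ U) {a b : E}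
    (hb : ∀ v w, H3 f x b v w = 0) : H3 f x (a + b) (a + b) (a + b) = H3 f x a a a := by
  have s1 := H3_symm_left hU hf hx
  have s2 := H3_symm_right hU hf hx
  rw [H3_add_left, hb, add_zero, s1 a (a + b) (a + b), H3_add_left, hb, add_zero,
    s2 a a (a + b), s1 a (a + b) a, H3_add_left, hb, add_zero]

variable {E' : Type*} [NormedAddCommGroup E'] [NormedSpace ℝ E']

/-- derivatives of the composition with an affine map -/
lemma chart_D1 (hU : IsOpen U) (hf : ContDiffOn ℝ 3 f U) (a0 : E) (L : E' →L[ℝ] E) {y : E'}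
    (hy : a0 + L y ∈ U) (v : E') :
    fderiv ℝ (fun z => f (a0 + L z)) y v = fderiv ℝ f (a0 + L y) (L v) := by
  have h1 : HasFDerivAt (fun z => a0 + L z) L y := L.hasFDerivAt.const_add a0
  have h2 := ((diff0 hU hf hy).hasFDerivAt).comp y h1
  have : fderiv ℝ (fun z => f (a0 + L z)) y = (fderiv ℝ f (a0 + L y)).comp L := h2.fderiv
  rw [this]
  rfl

lemma chart_open (hU : IsOpen U) (a0 : E) (L : E' →L[ℝ] E) : IsOpen {y : E' | a0 + L y ∈ U} :=
  hU.preimage (by fun_prop)

lemma chart_smooth (hf : ContDiffOn ℝ 3 f U) (a0 : E) (L : E' →L[ℝ] E) :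
    ContDiffOn ℝ 3 (fun z => f (a0 + L z)) {y : E' | a0 + L y ∈ U} :=
  hf.comp (by fun_prop) (fun _ h => h)

lemma affine_deriv {F : Type*} [NormedAddCommGroup F] [NormedSpace ℝ F] {g : E → F} (a0 : E)
    (L : E' →L[ℝ] E) {y : E'} (hg : DifferentiableAt ℝ g (a0 + L y)) (v : E') :
    fderiv ℝ (fun z => g (a0 + L z)) y v = fderiv ℝ g (a0 + L y) (L v) := by
  have h1 : HasFDerivAt (fun z => a0 + L z) L y := L.hasFDerivAt.const_add a0
  have h2 := (hg.hasFDerivAt).comp y h1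
  have : fderiv ℝ (fun z => g (a0 + L z)) y = (fderiv ℝ g (a0 + L y)).comp L := h2.fderiv
  rw [this]
  rfl

lemma chart_H2 (hU : IsOpen U) (hf : ContDiffOn ℝ 3 f U) (a0 : E) (L : E' →L[ℝ] E) {y : E'}
    (hy : a0 + L y ∈ U) (v w : E') :
    H2 (fun z => f (a0 + L z)) y v w = H2 f (a0 + L y) (L v) (L w) := by
  rw [H2_eq (diff1 (chart_open hU a0 L) (chart_smooth hf a0 L) hy), H2_eq (diff1 hU hf hy)]
  have hev : (fun z => fderiv ℝ (fun z => f (a0 + L z)) z w) =ᶠ[𝓝 y]
      fun z => (fun x => fderiv ℝ f x (L w)) (a0 + L z) := by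
    filter_upwards [(chart_open hU a0 L).mem_nhds hy] with z hz
    exact chart_D1 hU hf a0 L hz w
  rw [hev.fderiv_eq]
  exact affine_deriv a0 L ((diff1 hU hf hy).clm_apply (differentiableAt_const _)) v

lemma chart_H3 (hU : IsOpen U) (hf : ContDiffOn ℝ 3 f U) (a0 : E) (L : E' →L[ℝ] E) {y : E'}
    (hy : a0 + L y ∈ U) (u v w : E') :
    H3 (fun z => f (a0 + L z)) y u v w = H3 f (a0 + L y) (L u) (L v) (L w) := by
  rw [H3_eq (diff2 (chart_open hU a0 L) (chart_smooth hf a0 L) hy), H3_eq (diff2 hU hf hy)]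
  have hev : (fun z => H2 (fun z => f (a0 + L z)) z v w) =ᶠ[𝓝 y]
      fun z => (fun x => H2 f x (L v) (L w)) (a0 + L z) := by
    filter_upwards [(chart_open hU a0 L).mem_nhds hy] with z hz
    exact chart_H2 hU hf a0 L hz v w
  rw [hev.fderiv_eq]
  have hd : DifferentiableAt ℝ (fun x => H2 f x (L v) (L w)) (a0 + L y) := by
    unfold H2
    exact ((diff2 hU hf hy).clm_apply (differentiableAt_const _)).clm_apply
      (differentiableAt_const _)
  exact affine_deriv a0 L hd u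

end general

/-- positively and negatively homogeneous of degree one, smooth off the origin -/
structure Homog (H : E → ℝ) : Prop where
  smooth : ContDiffOn ℝ ∞ H {0}ᶜ
  hom : ∀ t : ℝ, t ≠ 0 → ∀ x : E, H (t • x) = t * H x

namespace Homog

variable {H : E → ℝ} (hH : Homog H)
include hH

lemma s3 : ContDiffOn ℝ 3 H {0}ᶜ := smooth3 hH.smooth

omit hH in
lemma mem {x : E} (hx : x ≠ 0) : x ∈ ({0}ᶜ : Set E) := hx

lemma D1_smul {t : ℝ} (ht : t ≠ 0) {x : E} (hx : x ≠ 0) :
    fderiv ℝ H (t • x) = fderiv ℝ H x := by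
  have htx : t • x ≠ 0 := smul_ne_zero ht hx
  have h1 : HasFDerivAt (fun y : E => t • y) (t • ContinuousLinearMap.id ℝ E) x :=
    (hasFDerivAt_id x).const_smul t
  have h2 := ((diff0 isOpen_compl_singleton hH.s3 (mem htx)).hasFDerivAt).comp x h1
  have h3 : HasFDerivAt (fun y : E => t * H y) (t • fderiv ℝ H x) x :=
    ((diff0 isOpen_compl_singleton hH.s3 (mem hx)).hasFDerivAt).const_mul t
  have h4 : (H ∘ fun y : E => t • y) = fun y => t * H y := funext fun y => hH.hom t ht y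
  rw [h4] at h2
  have h5 := h2.unique h3
  ext v
  have h6 := congrArg (fun l : E →L[ℝ] ℝ => l v) h5
  simp at h6
  rcases h6 with h | h
  · exact h
  · exact absurd h ht

lemma H2_smul {t : ℝ} (ht : t ≠ 0) {x : E} (hx : x ≠ 0) (v w : E) :
    H2 H (t • x) v w = t⁻¹ * H2 H x v w := by
  have htx : t • x ≠ 0 := smul_ne_zero ht hx
  have h1 : HasFDerivAt (fun y : E => t • y) (t • ContinuousLinearMap.id ℝ E) x :=
    (hasFDerivAt_id x).const_smul t
  have h2 := ((diff1 isOpen_compl_singleton hH.s3 (mem htx)).hasFDerivAt).comp x h1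
  have h3 := (diff1 isOpen_compl_singleton hH.s3 (mem hx)).hasFDerivAt
  have hev : (fderiv ℝ H ∘ fun y : E => t • y) =ᶠ[𝓝 x] fderiv ℝ H := by
    filter_upwards [isOpen_compl_singleton.mem_nhds (mem hx)] with y hy
    exact hH.D1_smul ht hy
  have h5 := (h3.congr_of_eventuallyEq hev).unique h2
  have h6 := congrArg (fun l : E →L[ℝ] (E →L[ℝ] ℝ) => l v w) h5
  simp at h6
  unfold H2
  rw [h6]
  field_simp

lemma H3_smul' {t : ℝ} (ht : t ≠ 0) {x : E} (hx : x ≠ 0) (u v w : E) :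
    H3 H (t • x) u v w = t⁻¹ ^ 2 * H3 H x u v w := by
  have htx : t • x ≠ 0 := smul_ne_zero ht hx
  rw [H3_eq (diff2 isOpen_compl_singleton hH.s3 (mem htx)),
    H3_eq (diff2 isOpen_compl_singleton hH.s3 (mem hx))]
  have hd : ∀ z : E, z ≠ 0 → DifferentiableAt ℝ (fun x => H2 H x v w) z := by
    intro z hz
    unfold H2
    exact ((diff2 isOpen_compl_singleton hH.s3 (mem hz)).clm_apply
      (differentiableAt_const _)).clm_apply (differentiableAt_const _)
  have h1 : HasFDerivAt (fun y : E => t • y) (t • ContinuousLinearMap.id ℝ E) x :=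
    (hasFDerivAt_id x).const_smul t
  have h2 := ((hd _ htx).hasFDerivAt).comp x h1
  have h3 : HasFDerivAt (fun y : E => t⁻¹ * H2 H y v w)
    (t⁻¹ • fderiv ℝ (fun z => H2 H z v w) x) x := ((hd _ hx).hasFDerivAt).const_mul t⁻¹
  have hev : ((fun x => H2 H x v w) ∘ fun y : E => t • y) =ᶠ[𝓝 x]
      fun y => t⁻¹ * H2 H y v w := by
    filter_upwards [isOpen_compl_singleton.mem_nhds (mem hx)] with y hy
    exact hH.H2_smul ht hy v w
  have h5 := (h3.congr_of_eventuallyEq hev).unique h2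
  have h6 := congrArg (fun l : E →L[ℝ] ℝ => l u) h5
  simp at h6
  have : fderiv ℝ (fun z => H2 H z v w) (t • x) u =
      t⁻¹ * (t⁻¹ * fderiv ℝ (fun z => H2 H z v w) x u) := by
    rw [h6]; field_simp
  rw [this]
  ring

/-- Euler -/
lemma euler1 {x : E} (hx : x ≠ 0) : fderiv ℝ H x x = H x := by
  have h1 : HasDerivAt (fun t : ℝ => t • x) x 1 := by
    simpa using (hasDerivAt_id (1 : ℝ)).smul_const x
  have h0 : HasFDerivAt H (fderiv ℝ H x) ((1 : ℝ) • x) := by
    rw [one_smul]; exact (diff0 isOpen_compl_singleton hH.s3 (mem hx)).hasFDerivAt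
  have h2 := h0.comp_hasDerivAt (1 : ℝ) h1
  have h3 : HasDerivAt (fun t : ℝ => t * H x) (H x) 1 := by
    simpa using (hasDerivAt_id (1 : ℝ)).mul_const (H x)
  have hev : (fun t : ℝ => t * H x) =ᶠ[𝓝 1] (H ∘ fun t : ℝ => t • x) := by
    filter_upwards [isOpen_compl_singleton.mem_nhds (one_ne_zero : (1 : ℝ) ≠ 0)] with t ht
    exact (hH.hom t ht x).symm
  exact (h2.congr_of_eventuallyEq hev).unique h3

lemma euler2 {x : E} (hx : x ≠ 0) (v : E) : H2 H x x v = 0 := by
  have h1 : HasDerivAt (fun t : ℝ => t • x) x 1 := by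
    simpa using (hasDerivAt_id (1 : ℝ)).smul_const x
  have h0 : HasFDerivAt (fderiv ℝ H) (fderiv ℝ (fderiv ℝ H) x) ((1 : ℝ) • x) := by
    rw [one_smul]; exact (diff1 isOpen_compl_singleton hH.s3 (mem hx)).hasFDerivAt
  have h2 := h0.comp_hasDerivAt (1 : ℝ) h1
  have h3 : HasDerivAt (fun _ : ℝ => fderiv ℝ H x) 0 1 := hasDerivAt_const _ _
  have hev : (fun _ : ℝ => fderiv ℝ H x) =ᶠ[𝓝 1] (fderiv ℝ H ∘ fun t : ℝ => t • x) := by
    filter_upwards [isOpen_compl_singleton.mem_nhds (one_ne_zero : (1 : ℝ) ≠ 0)] with t ht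
    exact (hH.D1_smul ht hx).symm
  have h5 := (h2.congr_of_eventuallyEq hev).unique h3
  unfold H2
  rw [h5]
  rfl

lemma euler2' {x : E} (hx : x ≠ 0) (v : E) : H2 H x v x = 0 := by
  rw [H2_symm isOpen_compl_singleton hH.s3 (mem hx), hH.euler2 hx]

lemma euler3 {x : E} (hx : x ≠ 0) (v w : E) : H3 H x x v w = -H2 H x v w := by
  rw [H3_eq (diff2 isOpen_compl_singleton hH.s3 (mem hx))]
  have hd : DifferentiableAt ℝ (fun x => H2 H x v w) x := by
    unfold H2
    exact ((diff2 isOpen_compl_singleton hH.s3 (mem hx)).clm_apply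
      (differentiableAt_const _)).clm_apply (differentiableAt_const _)
  have h1 : HasDerivAt (fun t : ℝ => t • x) x 1 := by
    simpa using (hasDerivAt_id (1 : ℝ)).smul_const x
  have h0 : HasFDerivAt (fun x => H2 H x v w) (fderiv ℝ (fun x => H2 H x v w) x)
      ((1 : ℝ) • x) := by
    rw [one_smul]; exact hd.hasFDerivAt
  have h2 := h0.comp_hasDerivAt (1 : ℝ) h1
  have h3 : HasDerivAt (fun t : ℝ => t⁻¹ * H2 H x v w) (-H2 H x v w) 1 := by
    simpa using (hasDerivAt_inv (one_ne_zero : (1 : ℝ) ≠ 0)).mul_const (H2 H x v w)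
  have hev : (fun t : ℝ => t⁻¹ * H2 H x v w) =ᶠ[𝓝 1]
      ((fun x => H2 H x v w) ∘ fun t : ℝ => t • x) := by
    filter_upwards [isOpen_compl_singleton.mem_nhds (one_ne_zero : (1 : ℝ) ≠ 0)] with t ht
    exact (hH.H2_smul ht hx v w).symm
  exact (h2.congr_of_eventuallyEq hev).unique h3

end Homog

/-- the condition at the point `x` of the cone -/
def Fold (H : E → ℝ) (x : E) : Prop :=
  ∀ v : E, (∀ c : ℝ, c • x ≠ v) → (∀ w, H2 H x v w = 0) →
    H3 H x v v v ≠ 0 ∧ ∃ w, H2 H x w w ≠ 0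

lemma Fold.smul {H : E → ℝ} (hH : Homog H) {x : E} (hx : x ≠ 0) (h : Fold H x) {t : ℝ}
    (ht : t ≠ 0) : Fold H (t • x) := by
  intro v hv hk
  obtain ⟨h1, w, h2⟩ := h v (fun c hc => hv (c * t⁻¹) (by
      rw [smul_smul, mul_assoc, inv_mul_cancel₀ ht, mul_one, hc])) (fun w => by
    have := hk w
    rw [hH.H2_smul ht hx] at this
    exact (mul_eq_zero.1 this).resolve_left (inv_ne_zero ht))
  refine ⟨?_, w, ?_⟩
  · rw [hH.H3_smul' ht hx]
    exact mul_ne_zero (pow_ne_zero _ (inv_ne_zero ht)) h1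
  · rw [hH.H2_smul ht hx]
    exact mul_ne_zero (inv_ne_zero ht) h2

/-- the condition in an affine chart gives the condition in the cone -/
lemma Fold.of_chart {E' : Type*} [NormedAddCommGroup E'] [NormedSpace ℝ E'] {H : E → ℝ}
    (hH : Homog H) (a0 : E) (L : E' →L[ℝ] E) {y : E'} (hy : a0 + L y ≠ 0)
    (hspan : ∀ v : E, ∃ (α : ℝ) (b : E'), v = L b + α • (a0 + L y))
    (h : ∀ k, k ≠ 0 → (∀ v, H2 (fun z => H (a0 + L z)) y k v = 0) →
      H3 (fun z => H (a0 + L z)) y k k k ≠ 0 ∧ ∃ v, H2 (fun z => H (a0 + L z)) y v v ≠ 0) :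
    Fold H (a0 + L y) := by
  intro v hv hk
  obtain ⟨α, b, rfl⟩ := hspan v
  set x := a0 + L y with hx
  have hb0 : b ≠ 0 := by
    rintro rfl
    exact hv α (by simp)
  have hLb : ∀ w, H2 H x (L b) w = 0 := by
    intro w
    have := hk w
    rw [H2_add_left, H2_smul_left, hH.euler2 hy, mul_zero, add_zero] at this
    exact this
  obtain ⟨h1, w, h2⟩ := h b hb0 (fun v => by
    rw [chart_H2 isOpen_compl_singleton hH.s3 a0 L hy]
    exact hLb _)
  rw [chart_H3 isOpen_compl_singleton hH.s3 a0 L hy] at h1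
  rw [chart_H2 isOpen_compl_singleton hH.s3 a0 L hy] at h2
  refine ⟨?_, L w, h2⟩
  have e : H3 H x (L b + α • x) (L b + α • x) (L b + α • x) = H3 H x (L b) (L b) (L b) := by
    have s1 := H3_symm_left isOpen_compl_singleton hH.s3 (Homog.mem hy)
    have s2 := H3_symm_right isOpen_compl_singleton hH.s3 (Homog.mem hy)
    -- `H3 x (α • x) v w = - α * H2 v w`
    have ex : ∀ v w, H3 H x (α • x) v w = -(α * H2 H x v w) := by
      intro v w
      rw [H3_smul_left, hH.euler3 hy]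
      ring
    have z2 : ∀ w, H2 H x (L b + α • x) w = 0 := hk
    have z2' : ∀ w, H2 H x w (L b + α • x) = 0 := fun w => by
      rw [H2_symm isOpen_compl_singleton hH.s3 (Homog.mem hy)]; exact hk w
    rw [H3_add_left, ex, z2, mul_zero, neg_zero, add_zero, s1, H3_add_left, ex, hLb,
      mul_zero, neg_zero, add_zero, s2, s1, H3_add_left, ex, hLb, mul_zero, neg_zero, add_zero]
  rw [e]
  exact h1

end

end Pool.Agent.H30.Hedge
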