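import Mathlib
import Pool.Agent.H30.Hedge.Defs
import Pool.Agent.H30.Hedge.Homog

/-!
# From the fold condition to cuspidal edges
-/

open Set Filter Topology
open scoped ContDiff

namespace Pool.Agent.H30.Hedge

noncomputable section

set_option maxSynthPendingDepth 3

/-- the map `(f_p, f_q, f - p f_p - q f_q)` -/
def front (f : ℝ × ℝ → ℝ) (y : ℝ × ℝ) : ℝ × ℝ × ℝ :=
  (fderiv ℝ f y (1, 0), fderiv ℝ f y (0, 1),
    f y - y.1 * fderiv ℝ f y (1, 0) - y.2 * fderiv ℝ f y (0, 1))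

/-- the normal form of the cuspidal edge -/
def NormalForm : Prop :=
  ∀ f : ℝ × ℝ → ℝ, ContDiffAt ℝ ∞ f 0 → H2 f 0 (1, 0) (1, 0) ≠ 0 → H2 f 0 (1, 0) (0, 1) = 0 →
    H2 f 0 (0, 1) (0, 1) = 0 → H3 f 0 (0, 1) (0, 1) (0, 1) ≠ 0 →
    ∃ (φ : ℝ × ℝ → ℝ × ℝ) (ψ : ℝ × ℝ × ℝ → ℝ × ℝ × ℝ),
      ContDiffAt ℝ ∞ φ 0 ∧ φ 0 = 0 ∧ Function.Bijective (fderiv ℝ φ 0) ∧
      ContDiffAt ℝ ∞ ψ (front f 0) ∧ Function.Bijective (fderiv ℝ ψ (front f 0)) ∧
      ∀ᶠ p in 𝓝 (0 : ℝ × ℝ), ψ (front f (φ p)) = (p.1, p.2 ^ 2, p.2 ^ 3)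

section

variable {H : V3 → ℝ} (hH : Homog H)
include hH

lemma H0_eq {x : V3} (hx : x ≠ 0) : H (‖x‖⁻¹ • x) = ‖x‖⁻¹ * H x :=
  hH.hom _ (inv_ne_zero (norm_ne_zero_iff.2 hx)) x

lemma smoothOnSphere : SmoothOnSphere H := by
  have hn : ContDiffOn ℝ ∞ (fun x : V3 => ‖x‖) {0}ᶜ := contDiffOn_id.norm ℝ (fun x hx => hx)
  have h1 : ContDiffOn ℝ ∞ (fun x : V3 => ‖x‖⁻¹ * H x) {0}ᶜ :=
    (hn.inv (fun x hx => norm_ne_zero_iff.2 hx)).mul hH.smooth
  exact h1.congr fun x hx => H0_eq hH hx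

lemma diffH {x : V3} (hx : x ≠ 0) : DifferentiableAt ℝ H x :=
  diff0 isOpen_compl_singleton hH.s3 hx

lemma norm_deriv {u : V3} (hu : ‖u‖ = 1) : HasFDerivAt (fun x : V3 => ‖x‖) (innerSL ℝ u) u := by
  have h1 := (hasStrictFDerivAt_norm_sq u).hasFDerivAt
  have h2 := h1.sqrt (by rw [hu]; norm_num)
  have e : (fun x : V3 => √(‖x‖ ^ 2)) = fun x => ‖x‖ := by
    funext x; exact Real.sqrt_sq (norm_nonneg x)
  rw [e] at h2
  refine h2.congr_fderiv ?_
  ext v
  simp [hu]

/-- the gradient of the homogeneous function is the hedgehog map -/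
lemma grad_eq {u : V3} (hu : ‖u‖ = 1) : hedgehog H u = gradient H u := by
  have hu0 : u ≠ 0 := by rintro rfl; simp at hu
  have h1 : HasFDerivAt (fun x : V3 => ‖x‖⁻¹) (-innerSL ℝ u) u := by
    have h := (hasDerivAt_inv (x := ‖u‖) (by rw [hu]; norm_num)).comp_hasFDerivAt u
      (norm_deriv hH hu)
    refine h.congr_fderiv ?_
    ext v
    simp [hu]
  have h2 := h1.mul (diffH hH hu0).hasFDerivAt
  have hev : (fun x : V3 => H (‖x‖⁻¹ • x)) =ᶠ[𝓝 u] fun x => ‖x‖⁻¹ * H x := by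
    filter_upwards [isOpen_compl_singleton.mem_nhds hu0] with x hx
    exact H0_eq hH hx
  have h3 := (h2.congr_of_eventuallyEq hev).fderiv
  unfold hedgehog gradient
  rw [h3]
  apply (InnerProductSpace.toDual ℝ V3).injective
  ext v
  simp [hu]

/-- the same at all points of the ray -/
lemma grad_eq' {x : V3} (hx : x ≠ 0) : hedgehog H (‖x‖⁻¹ • x) = gradient H x := by
  have hn : ‖‖x‖⁻¹ • x‖ = 1 := norm_smul_inv_norm (𝕜 := ℝ) hx
  rw [grad_eq hH hn]
  unfold gradient
  rw [hH.D1_smul (inv_ne_zero (norm_ne_zero_iff.2 hx)) hx]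

lemma singular_kernel {u v : V3} (hu : ‖u‖ = 1)
    (h : fderiv ℝ (fun x => hedgehog H (‖x‖⁻¹ • x)) u v = 0) : ∀ w, H2 H u v w = 0 := by
  have hu0 : u ≠ 0 := by rintro rfl; simp at hu
  have hev : (fun x => hedgehog H (‖x‖⁻¹ • x)) =ᶠ[𝓝 u] fun x => gradient H x := by
    filter_upwards [isOpen_compl_singleton.mem_nhds hu0] with x hx
    exact grad_eq' hH hx
  rw [hev.fderiv_eq] at h
  have hi : ∀ x w : V3, inner ℝ (gradient H x) w = fderiv ℝ H x w := fun x w =>
    InnerProductSpace.toDual_symm_apply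
  have hd1 := diff1 isOpen_compl_singleton hH.s3 (Homog.mem hu0)
  have hdg : DifferentiableAt ℝ (fun x => gradient H x) u := by
    rw [differentiableAt_euclidean]
    intro i
    have e : (fun x => gradient H x i) = fun x => fderiv ℝ H x (EuclideanSpace.single i 1) := by
      funext x
      rw [← hi x, EuclideanSpace.inner_single_right]
      simp
    rw [e]
    exact hd1.clm_apply (differentiableAt_const _)
  intro w
  rw [H2_eq hd1]
  have e : (fun z => fderiv ℝ H z w) = fun z => inner ℝ (gradient H z) w :=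
    funext fun z => (hi z w).symm
  rw [e, fderiv_inner_apply ℝ hdg (differentiableAt_const w), h]
  simp

/-- **Folds are cuspidal edges.** -/
theorem cusp_of_fold (hC : NormalForm) (hF : ∀ x : V3, x ≠ 0 → Fold H x) (u : V3) (hu : ‖u‖ = 1)
    (hs : SingularAt H u) : CuspidalEdgeAt H u := by
  have hu0 : u ≠ 0 := by rintro rfl; simp at hu
  obtain ⟨v, hv0, hvu, hker⟩ := hs
  have hk := singular_kernel hH hu hker
  have hne : ∀ c : ℝ, c • u ≠ v := by
    intro c hc
    rw [← hc, inner_smul_right, real_inner_self_eq_norm_sq, hu] at hvu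
    have : c = 0 := by linarith
    rw [this, zero_smul] at hc
    exact hv0 hc.symm
  obtain ⟨h3, w, hw⟩ := hF u hu0 v hne hk
  have hUo : IsOpen ({0}ᶜ : Set V3) := isOpen_compl_singleton
  -- the three vectors are independent
  have hk' : ∀ z, H2 H u z v = 0 := fun z => by rw [H2_symm hUo hH.s3 hu0]; exact hk z
  have indep : ∀ a b c : ℝ, a • w + b • v = c • u → a = 0 ∧ b = 0 ∧ c = 0 := by
    intro a b c h
    have h1 : H2 H u (a • w + b • v) w = 0 := by
      rw [h, H2_smul_left, hH.euler2 hu0, mul_zero]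
    rw [H2_add_left, H2_smul_left, H2_smul_left, hk, mul_zero, add_zero] at h1
    have ha : a = 0 := (mul_eq_zero.1 h1).resolve_right hw
    rw [ha, zero_smul, zero_add] at h
    have hb : b = 0 := by
      by_contra hb
      apply hne (b⁻¹ * c)
      rw [mul_smul, ← h, smul_smul, inv_mul_cancel₀ hb, one_smul]
    rw [hb, zero_smul] at h
    exact ⟨ha, hb, (smul_eq_zero.1 h.symm).resolve_right hu0⟩
  -- the chart
  set L : ℝ × ℝ →L[ℝ] V3 :=
    (ContinuousLinearMap.fst ℝ ℝ ℝ).smulRight w + (ContinuousLinearMap.snd ℝ ℝ ℝ).smulRight v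
    with hL
  have hLv : ∀ y : ℝ × ℝ, L y = y.1 • w + y.2 • v := fun y => by simp [hL]
  set f : ℝ × ℝ → ℝ := fun z => H (u + L z) with hf
  have h00 : u + L 0 ≠ 0 := by rw [map_zero, add_zero]; exact hu0
  have hsm : ContDiffAt ℝ ∞ f 0 := by
    have h1 : ContDiffAt ℝ ∞ H (u + L 0) := hH.smooth.contDiffAt (hUo.mem_nhds h00)
    exact h1.comp (0 : ℝ × ℝ) (by fun_prop)
  have eu : u + L 0 = u := by rw [map_zero, add_zero]
  have L10 : L (1, 0) = w := by rw [hLv]; simp
  have L01 : L (0, 1) = v := by rw [hLv]; simp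
  obtain ⟨φ, ψ, c1, c2, c3, c4, c5, c6⟩ := hC f hsm
    (by rw [chart_H2 hUo hH.s3 u L h00, L10, eu]; exact hw)
    (by rw [chart_H2 hUo hH.s3 u L h00, L10, L01, eu]; exact hk' w)
    (by rw [chart_H2 hUo hH.s3 u L h00, L01, eu]; exact hk v)
    (by rw [chart_H3 hUo hH.s3 u L h00, L01, eu]; exact h3)
  -- the linear map of the target
  set Λ : V3 →L[ℝ] ℝ × ℝ × ℝ := (innerSL ℝ w).prod ((innerSL ℝ v).prod (innerSL ℝ u)) with hΛ
  have hΛv : ∀ g, Λ g = (inner ℝ w g, inner ℝ v g, inner ℝ u g) := fun g => by simp [hΛ]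
  have hfront : ∀ y : ℝ × ℝ, u + L y ≠ 0 → front f y = Λ (gradient H (u + L y)) := by
    intro y hy
    have d1 : fderiv ℝ f y (1, 0) = fderiv ℝ H (u + L y) w := by
      rw [hf, chart_D1 hUo hH.s3 u L hy, L10]
    have d2 : fderiv ℝ f y (0, 1) = fderiv ℝ H (u + L y) v := by
      rw [hf, chart_D1 hUo hH.s3 u L hy, L01]
    have hg : ∀ z, inner ℝ z (gradient H (u + L y)) = fderiv ℝ H (u + L y) z := by
      intro z
      rw [real_inner_comm]
      exact InnerProductSpace.toDual_symm_apply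
    have he := hH.euler1 hy
    rw [map_add, hLv, map_add, map_smul, map_smul, ← hLv] at he
    unfold front
    rw [d1, d2, hΛv, hg, hg, hg]
    refine Prod.ext rfl (Prod.ext rfl ?_)
    show H (u + L y) - y.1 * fderiv ℝ H (u + L y) w - y.2 * fderiv ℝ H (u + L y) v =
      fderiv ℝ H (u + L y) u
    rw [← he]
    simp only [smul_eq_mul]
    ring
  have hf0 : front f 0 = Λ (hedgehog H u) := by
    rw [hfront 0 h00, eu, grad_eq hH hu]
  have hΛinj : Function.Injective Λ := by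
    rw [injective_iff_map_eq_zero]
    intro g hg
    rw [hΛv] at hg
    have g1 : inner ℝ w g = 0 := congrArg Prod.fst hg
    have g2 : inner ℝ v g = 0 := congrArg (fun p => p.2.1) hg
    have g3 : inner ℝ u g = 0 := congrArg (fun p => p.2.2) hg
    -- `w, v, u` span
    have hli : LinearIndependent ℝ ![w, v, u] := by
      rw [Fintype.linearIndependent_iff]
      intro c hc i
      rw [Fin.sum_univ_three] at hc
      simp only [Matrix.cons_val_zero, Matrix.cons_val_one, Matrix.cons_val] at hc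
      have := indep (c 0) (c 1) (-(c 2)) (by
        rw [neg_smul]; exact eq_neg_of_add_eq_zero_left hc)
      fin_cases i
      · exact this.1
      · exact this.2.1
      · simpa using this.2.2
    have hsp := hli.span_eq_top_of_card_eq_finrank' (by simp)
    have hgm : g ∈ Submodule.span ℝ (Set.range ![w, v, u]) := by rw [hsp]; trivial
    have hle : Submodule.span ℝ (Set.range ![w, v, u]) ≤ (ℝ ∙ g)ᗮ := by
      rw [Submodule.span_le]
      rintro _ ⟨i, rfl⟩
      rw [SetLike.mem_coe, Submodule.mem_orthogonal_singleton_iff_inner_left]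
      fin_cases i
      · exact g1
      · exact g2
      · exact g3
    have := hle hgm
    rw [Submodule.mem_orthogonal_singleton_iff_inner_left] at this
    exact inner_self_eq_zero.1 this
  have hΛbij : Function.Bijective Λ := by
    refine ⟨hΛinj, ?_⟩
    have hfr : Module.finrank ℝ V3 = Module.finrank ℝ (ℝ × ℝ × ℝ) := by simp
    exact (LinearMap.injective_iff_surjective_of_finrank_eq_finrank (f := (Λ : V3 →ₗ[ℝ] _)) hfr).1
      hΛinj
  have hAφ : ContDiffAt ℝ ∞ (fun p => u + L (φ p)) 0 := by fun_prop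
  have hA0 : u + L (φ 0) = u := by rw [c2, map_zero, add_zero]
  have hne0 : ∀ᶠ p in 𝓝 (0 : ℝ × ℝ), u + L (φ p) ≠ 0 := by
    have : ContinuousAt (fun p => u + L (φ p)) 0 := hAφ.continuousAt
    apply this.eventually_ne
    rw [hA0]
    exact hu0
  have hnsm : ContDiffAt ℝ ∞ (fun p => ‖u + L (φ p)‖) 0 :=
    hAφ.norm ℝ (by rw [hA0]; exact hu0)
  have hφsm : ContDiffAt ℝ ∞ (fun p => ‖u + L (φ p)‖⁻¹ • (u + L (φ p))) 0 :=
    (hnsm.inv (by rw [hA0, hu]; norm_num)).smul hAφ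
  refine ⟨fun p => ‖u + L (φ p)‖⁻¹ • (u + L (φ p)), fun g => ψ (Λ g), hφsm, ?_, ?_, ?_, ?_, ?_, ?_⟩
  · show ‖u + L (φ 0)‖⁻¹ • (u + L (φ 0)) = u
    rw [hA0, hu]; simp
  · filter_upwards [hne0] with p hp
    exact norm_smul_inv_norm (𝕜 := ℝ) hp
  · rw [injective_iff_map_eq_zero]
    intro ξ hξ
    -- differentiate `y = ‖y‖ • φ`
    have e1 : HasFDerivAt (fun p => u + L (φ p)) (L.comp (fderiv ℝ φ 0)) 0 :=
      (L.hasFDerivAt.comp (0 : ℝ × ℝ) (c1.differentiableAt (by simp)).hasFDerivAt).const_add u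
    have e2 := (hnsm.differentiableAt (by simp)).hasFDerivAt
    have e3 := (hφsm.differentiableAt (by simp)).hasFDerivAt
    have e4 := e2.smul e3
    have hev : (fun p => u + L (φ p)) =ᶠ[𝓝 0]
        fun p => ‖u + L (φ p)‖ • (‖u + L (φ p)‖⁻¹ • (u + L (φ p))) := by
      filter_upwards [hne0] with p hp
      rw [smul_smul, mul_inv_cancel₀ (norm_ne_zero_iff.2 hp), one_smul]
    have e5 := e1.unique (e4.congr_of_eventuallyEq hev)
    have e6 := congrArg (fun l : ℝ × ℝ →L[ℝ] V3 => l ξ) e5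
    simp only [ContinuousLinearMap.comp_apply, ContinuousLinearMap.add_apply,
      ContinuousLinearMap.smul_apply, ContinuousLinearMap.smulRight_apply, hξ, smul_zero,
      zero_add] at e6
    rw [hA0, hu, inv_one, one_smul, hLv] at e6
    obtain ⟨a1, a2, -⟩ := indep _ _ _ e6
    have : fderiv ℝ φ 0 ξ = 0 := Prod.ext a1 a2
    exact (injective_iff_map_eq_zero _).1 c3.1 ξ this
  · rw [hf0] at c4
    exact c4.comp (hedgehog H u) Λ.contDiff.contDiffAt
  · rw [hf0] at c4 c5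
    have : fderiv ℝ (fun g => ψ (Λ g)) (hedgehog H u) =
        (fderiv ℝ ψ (Λ (hedgehog H u))).comp Λ :=
      ((c4.differentiableAt (by simp)).hasFDerivAt.comp _ Λ.hasFDerivAt).fderiv
    rw [this]
    exact c5.comp hΛbij
  · filter_upwards [hne0, c6] with p hp hp'
    show ψ (Λ (hedgehog H (‖u + L (φ p)‖⁻¹ • (u + L (φ p))))) = _
    rw [grad_eq' hH hp, ← hfront _ hp, hp']

end

end

end Pool.Agent.H30.Hedge
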