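import Mathlib
import Pool.Agent.H30.Hedge.Bump
import Pool.Agent.H30.Hedge.Formula

/-!
# The ring insertion lemma
-/

open Set Filter Topology
open scoped ContDiff

namespace Pool.Agent.H30.Hedge

noncomputable section

/-! ### compactness -/

lemma unif {X : Type*} [TopologicalSpace X] {K : Set X} (hK : IsCompact K) {g h : X → ℝ}
    (hg : ContinuousOn g K) (hh : ContinuousOn h K) (H : ∀ x ∈ K, g x ≤ 0 → 0 < h x) :
    ∃ ν : ℝ, 0 < ν ∧ ∀ x ∈ K, g x ≤ ν → ν ≤ h x := by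
  rcases K.eq_empty_or_nonempty with rfl | hne
  · exact ⟨1, one_pos, by simp⟩
  obtain ⟨x0, hx0, hmin⟩ := hK.exists_isMinOn hne (hg.sup hh)
  have hpos : 0 < (g ⊔ h) x0 := by
    show 0 < max (g x0) (h x0)
    rcases le_or_gt (g x0) 0 with h1 | h1
    · exact lt_max_of_lt_right (H x0 hx0 h1)
    · exact lt_max_of_lt_left h1
  refine ⟨(g ⊔ h) x0 / 2, half_pos hpos, fun x hx hgx => ?_⟩
  have h1 : (g ⊔ h) x0 ≤ max (g x) (h x) := hmin hx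
  rcases le_max_iff.1 h1 with h2 | h2
  · linarith
  · linarith

section TwoDim

variable {E : Type*} [NormedAddCommGroup E] [NormedSpace ℝ E] [FiniteDimensional ℝ E]

lemma span2 (hdim : Module.finrank ℝ E = 2) {a b : E} (ha : a ≠ 0) (hb : ∀ c : ℝ, c • a ≠ b)
    (v : E) : ∃ α β : ℝ, v = α • a + β • b := by
  have hli : LinearIndependent ℝ ![a, b] := (LinearIndependent.pair_iff' ha).2 hb
  have htop := hli.span_eq_top_of_card_eq_finrank' (by simp [hdim])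
  have hv : v ∈ Submodule.span ℝ (Set.range ![a, b]) := by rw [htop]; trivial
  rw [Matrix.range_cons, Matrix.range_cons, Matrix.range_empty, union_empty] at hv
  have : v ∈ Submodule.span ℝ {a, b} := hv
  obtain ⟨α, β, h⟩ := Submodule.mem_span_pair.1 this
  exact ⟨α, β, h.symm⟩

lemma exists_unit_ker (hdim : Module.finrank ℝ E = 2) (l : E →L[ℝ] ℝ) :
    ∃ t : E, ‖t‖ = 1 ∧ l t = 0 := by
  have h1 := LinearMap.finrank_range_add_finrank_ker (l : E →ₗ[ℝ] ℝ)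
  have h2 : Module.finrank ℝ (LinearMap.range (l : E →ₗ[ℝ] ℝ)) ≤ 1 := by
    have := Submodule.finrank_le (LinearMap.range (l : E →ₗ[ℝ] ℝ))
    rwa [Module.finrank_self] at this
  have h3 : 0 < Module.finrank ℝ (LinearMap.ker (l : E →ₗ[ℝ] ℝ)) := by omega
  have h4 : LinearMap.ker (l : E →ₗ[ℝ] ℝ) ≠ ⊥ := by
    intro h
    rw [h, finrank_bot] at h3
    exact lt_irrefl _ h3
  obtain ⟨u, hu, hu0⟩ := Submodule.exists_mem_ne_zero_of_ne_bot h4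
  have hl : l u = 0 := hu
  refine ⟨‖u‖⁻¹ • u, norm_smul_inv_norm (𝕜 := ℝ) hu0, ?_⟩
  rw [map_smul, hl, smul_zero]

end TwoDim

variable {E : Type*} [NormedAddCommGroup E] [NormedSpace ℝ E]

/-- a form with a positive and a negative vector has no kernel -/
lemma no_kernel [FiniteDimensional ℝ E] (hdim : Module.finrank ℝ E = 2) {g : E → ℝ} {x t v k : E}
    (hsym : ∀ a b, H2 g x a b = H2 g x b a)
    (ht : 0 < H2 g x t t) (hv : H2 g x v v < 0) (hk0 : k ≠ 0) (hk : ∀ w, H2 g x k w = 0) :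
    False := by
  have hkk := hk k
  have hne : ∀ c : ℝ, c • k ≠ t := by
    intro c hc
    rw [← hc, H2_smul_left, hk] at ht
    simp at ht
  obtain ⟨α, β, rfl⟩ := span2 hdim hk0 hne v
  simp only [H2_add_left, H2_add_right, H2_smul_left, H2_smul_right] at hv
  rw [hsym t k, hk t, hk k] at hv
  nlinarith [mul_nonneg (mul_self_nonneg β) ht.le]

lemma H2_cont {U : Set E} (hU : IsOpen U) {f : E → ℝ} (hf : ContDiffOn ℝ 3 f U) :
    ContinuousOn (fderiv ℝ (fderiv ℝ f)) U := (contDiffOn2 hU hf).continuousOn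

lemma fd_cont {U : Set E} (hU : IsOpen U) {f : E → ℝ} (hf : ContDiffOn ℝ 3 f U) :
    ContinuousOn (fderiv ℝ f) U := (contDiffOn1 hU hf).continuousOn

lemma H3_cont {U : Set E} (hU : IsOpen U) {f : E → ℝ} (hf : ContDiffOn ℝ 3 f U) :
    ContinuousOn (fderiv ℝ (fderiv ℝ (fderiv ℝ f))) U :=
  (((contDiffOn2 hU hf).fderiv_of_isOpen (m := 0) hU (by norm_num))).continuousOn

set_option maxSynthPendingDepth 3 in
/-- uniform bounds of all derivatives on a compact set -/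
lemma bounds {U K : Set E} (hU : IsOpen U) (hK : IsCompact K) (hKU : K ⊆ U) {f : E → ℝ}
    (hf : ContDiffOn ℝ 3 f U) : ∃ R : ℝ, 1 ≤ R ∧ ∀ x ∈ K, |f x| ≤ R ∧
      (∀ v, ‖v‖ = 1 → |fderiv ℝ f x v| ≤ R) ∧ (∀ v w, ‖v‖ = 1 → ‖w‖ = 1 → |H2 f x v w| ≤ R) ∧
      ∀ v, ‖v‖ = 1 → |H3 f x v v v| ≤ R := by
  obtain ⟨R0, h0⟩ := hK.exists_bound_of_continuousOn (hf.continuousOn.mono hKU)
  obtain ⟨R1, h1⟩ := hK.exists_bound_of_continuousOn (E := E →L[ℝ] ℝ) ((fd_cont hU hf).mono hKU)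
  obtain ⟨R2, h2⟩ := hK.exists_bound_of_continuousOn (E := E →L[ℝ] E →L[ℝ] ℝ)
    ((H2_cont hU hf).mono hKU)
  obtain ⟨R3, h3⟩ := hK.exists_bound_of_continuousOn (E := E →L[ℝ] E →L[ℝ] E →L[ℝ] ℝ)
    ((H3_cont hU hf).mono hKU)
  refine ⟨max 1 (max (max R0 R1) (max R2 R3)), le_max_left _ _, fun x hx => ⟨?_, ?_, ?_, ?_⟩⟩
  · have := h0 x hx
    rw [Real.norm_eq_abs] at this
    exact this.trans (((le_max_left _ _).trans (le_max_left _ _)).trans (le_max_right _ _))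
  · intro v hv
    have := (fderiv ℝ f x).le_opNorm v
    rw [hv, mul_one, Real.norm_eq_abs] at this
    exact (this.trans (h1 x hx)).trans
      (((le_max_right _ _).trans (le_max_left _ _)).trans (le_max_right _ _))
  · intro v w hv hw
    have e1 := (fderiv ℝ (fderiv ℝ f) x v).le_opNorm w
    have e2 := (fderiv ℝ (fderiv ℝ f) x).le_opNorm v
    rw [hw, mul_one, Real.norm_eq_abs] at e1
    rw [hv, mul_one] at e2
    exact ((e1.trans e2).trans (h2 x hx)).trans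
      (((le_max_left _ _).trans (le_max_right _ _)).trans (le_max_right _ _))
  · intro v hv
    have e1 := (fderiv ℝ (fderiv ℝ (fderiv ℝ f)) x v v).le_opNorm v
    have e2 := (fderiv ℝ (fderiv ℝ (fderiv ℝ f)) x v).le_opNorm v
    have e3 := (fderiv ℝ (fderiv ℝ (fderiv ℝ f)) x).le_opNorm v
    rw [hv, mul_one, Real.norm_eq_abs] at e1
    rw [hv, mul_one] at e2 e3
    exact (((e1.trans e2).trans e3).trans (h3 x hx)).trans
      (((le_max_right _ _).trans (le_max_right _ _)).trans (le_max_right _ _))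

/-- the estimate of the second derivatives of the perturbed function -/
lemma pert_est2 {U K : Set E} (hU : IsOpen U) (hKU : K ⊆ U) {f F lam : E → ℝ}
    {Φ Φ1 Φ2 : ℝ → ℝ} {ε R C : ℝ} (hf : ContDiffOn ℝ 3 f U) (hF : ContDiffOn ℝ 3 F U)
    (hl : ContDiffOn ℝ 3 lam U) (hΦ : ContDiff ℝ 3 Φ) (hε : 0 < ε) (hε1 : ε ≤ 1)
    (h0 : ∀ x, HasDerivAt Φ (Φ1 x) x) (h1 : ∀ x, HasDerivAt Φ1 (Φ2 x) x) (hR : 1 ≤ R)
    (bF : ∀ x ∈ K, |F x| ≤ R ∧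
      (∀ v, ‖v‖ = 1 → |fderiv ℝ F x v| ≤ R) ∧ (∀ v w, ‖v‖ = 1 → ‖w‖ = 1 → |H2 F x v w| ≤ R) ∧
      ∀ v, ‖v‖ = 1 → |H3 F x v v v| ≤ R)
    (bl : ∀ x ∈ K, |lam x| ≤ R ∧
      (∀ v, ‖v‖ = 1 → |fderiv ℝ lam x v| ≤ R) ∧ (∀ v w, ‖v‖ = 1 → ‖w‖ = 1 → |H2 lam x v w| ≤ R) ∧
      ∀ v, ‖v‖ = 1 → |H3 lam x v v v| ≤ R)
    (hC : ∀ x, |Φ x| ≤ C) (hC1 : ∀ x, |Φ1 x| ≤ C) {x : E} (hx : x ∈ K) {v w : E}
    (hv : ‖v‖ = 1) (hw : ‖w‖ = 1) :
    |H2 (pert f F lam Φ ε) x v w - H2 f x v w -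
      lam x * Φ2 (F x / ε) * (fderiv ℝ F x v * fderiv ℝ F x w)| ≤ 4 * R ^ 2 * C * ε := by
  rw [pert_mixed hU hf hF hl hΦ hε.ne' h0 h1 (hKU hx) v w]
  obtain ⟨-, F1, F2, -⟩ := bF x hx
  obtain ⟨L0, L1, L2, -⟩ := bl x hx
  have hCpos : 0 ≤ C := (abs_nonneg _).trans (hC 0)
  have hRpos : 0 ≤ R := by linarith
  have e : H2 f x v w + ε ^ 2 * H2 lam x v w * Φ (F x / ε) +
      ε * Φ1 (F x / ε) * (fderiv ℝ lam x v * fderiv ℝ F x w + fderiv ℝ lam x w * fderiv ℝ F x v) +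
      ε * lam x * Φ1 (F x / ε) * H2 F x v w +
      lam x * Φ2 (F x / ε) * (fderiv ℝ F x v * fderiv ℝ F x w) - H2 f x v w -
      lam x * Φ2 (F x / ε) * (fderiv ℝ F x v * fderiv ℝ F x w) =
      ε * (ε * (H2 lam x v w * Φ (F x / ε)) +
        Φ1 (F x / ε) * (fderiv ℝ lam x v * fderiv ℝ F x w) +
        Φ1 (F x / ε) * (fderiv ℝ lam x w * fderiv ℝ F x v) +
        lam x * Φ1 (F x / ε) * H2 F x v w) := by ring
  rw [e, abs_mul, abs_of_pos hε]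
  have t1 : |ε * (H2 lam x v w * Φ (F x / ε))| ≤ R ^ 2 * C := by
    rw [abs_mul, abs_mul, abs_of_pos hε]
    have := mul_le_mul (L2 v w hv hw) (hC (F x / ε)) (abs_nonneg _) hRpos
    have h3 : R * C ≤ R ^ 2 * C := by
      nlinarith [mul_nonneg (mul_nonneg hCpos hRpos) (sub_nonneg.2 hR)]
    have h4 : 0 ≤ |H2 lam x v w| * |Φ (F x / ε)| := by positivity
    nlinarith
  have t2 : |Φ1 (F x / ε) * (fderiv ℝ lam x v * fderiv ℝ F x w)| ≤ R ^ 2 * C := by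
    rw [abs_mul, abs_mul]
    have := mul_le_mul (L1 v hv) (F1 w hw) (abs_nonneg _) hRpos
    have := mul_le_mul (hC1 (F x / ε)) this (by positivity) hCpos
    nlinarith
  have t3 : |Φ1 (F x / ε) * (fderiv ℝ lam x w * fderiv ℝ F x v)| ≤ R ^ 2 * C := by
    rw [abs_mul, abs_mul]
    have := mul_le_mul (L1 w hw) (F1 v hv) (abs_nonneg _) hRpos
    have := mul_le_mul (hC1 (F x / ε)) this (by positivity) hCpos
    nlinarith
  have t4 : |lam x * Φ1 (F x / ε) * H2 F x v w| ≤ R ^ 2 * C := by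
    rw [abs_mul, abs_mul]
    have := mul_le_mul L0 (hC1 (F x / ε)) (abs_nonneg _) hRpos
    have := mul_le_mul this (F2 v w hv hw) (abs_nonneg _) (by positivity)
    nlinarith
  have := abs_add_le (ε * (H2 lam x v w * Φ (F x / ε)) +
        Φ1 (F x / ε) * (fderiv ℝ lam x v * fderiv ℝ F x w) +
        Φ1 (F x / ε) * (fderiv ℝ lam x w * fderiv ℝ F x v)) (lam x * Φ1 (F x / ε) * H2 F x v w)
  have := abs_add_le (ε * (H2 lam x v w * Φ (F x / ε)) +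
        Φ1 (F x / ε) * (fderiv ℝ lam x v * fderiv ℝ F x w))
        (Φ1 (F x / ε) * (fderiv ℝ lam x w * fderiv ℝ F x v))
  have := abs_add_le (ε * (H2 lam x v w * Φ (F x / ε)))
        (Φ1 (F x / ε) * (fderiv ℝ lam x v * fderiv ℝ F x w))
  nlinarith

/-- the estimate of the terms of the third derivative -/
lemma real_est3 {tf tl p0 ql p1 dF dl qF p2 l tF R C ε : ℝ} (hR : 1 ≤ R) (hε : 0 < ε)
    (hε1 : ε ≤ 1) (f3 : |tf| ≤ R) (F1 : |dF| ≤ R) (F2 : |qF| ≤ R) (F3 : |tF| ≤ R) (L0 : |l| ≤ R)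
    (L1 : |dl| ≤ R) (L2 : |ql| ≤ R) (L3 : |tl| ≤ R) (c0 : |p0| ≤ C) (c1 : |p1| ≤ C)
    (c2 : |p2| ≤ C) :
    |tf + ε ^ 2 * (tl * p0) + 3 * (ε * (ql * p1 * dF)) + 3 * (ε * (dl * p1 * qF)) +
      3 * (dl * p2 * (dF * dF)) + ε * (l * p1 * tF) + 3 * (l * p2 * (dF * qF))| ≤
      20 * R ^ 3 * (1 + C) := by
  have hCpos : 0 ≤ C := (abs_nonneg _).trans c0
  have hRpos : 0 ≤ R := by linarith
  have hR12 : R ≤ R ^ 2 := by nlinarith
  have hR23 : R ^ 2 ≤ R ^ 3 := by nlinarith [sq_nonneg R]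
  have hR13 : R ≤ R ^ 3 := hR12.trans hR23
  have k1 : R * C ≤ R ^ 3 * C := mul_le_mul_of_nonneg_right hR13 hCpos
  have k2 : R ^ 2 * C ≤ R ^ 3 * C := mul_le_mul_of_nonneg_right hR23 hCpos
  have m2 : ∀ a b : ℝ, |a| ≤ R → |b| ≤ C → |a * b| ≤ R ^ 3 * C := by
    intro a b ha hb
    rw [abs_mul]
    have := mul_le_mul ha hb (abs_nonneg _) hRpos
    linarith
  have m3 : ∀ a b c : ℝ, |a| ≤ R → |b| ≤ C → |c| ≤ R → |a * b * c| ≤ R ^ 3 * C := by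
    intro a b c ha hb hc
    rw [abs_mul, abs_mul]
    have := mul_le_mul (mul_le_mul ha hb (abs_nonneg _) hRpos) hc (abs_nonneg _) (by positivity)
    have e : R * C * R = R ^ 2 * C := by ring
    rw [e] at this
    linarith
  have m4 : ∀ a b c d : ℝ, |a| ≤ R → |b| ≤ C → |c| ≤ R → |d| ≤ R →
      |a * b * (c * d)| ≤ R ^ 3 * C := by
    intro a b c d ha hb hc hd
    rw [abs_mul, abs_mul, abs_mul]
    have := mul_le_mul (mul_le_mul ha hb (abs_nonneg _) hRpos)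
      (mul_le_mul hc hd (abs_nonneg _) hRpos) (by positivity) (by positivity)
    have e : R * C * (R * R) = R ^ 3 * C := by ring
    rw [e] at this
    linarith
  have sm : ∀ a c Q : ℝ, 0 ≤ c → c ≤ 1 → |a| ≤ Q → |c * a| ≤ Q := by
    intro a c Q hc hc1 ha
    rw [abs_mul, abs_of_nonneg hc]
    nlinarith [abs_nonneg a]
  have hε2 : ε ^ 2 ≤ 1 := by nlinarith
  have s1 := sm _ (ε ^ 2) _ (by positivity) hε2 (m2 tl p0 L3 c0)
  have s2 := sm _ ε _ hε.le hε1 (m3 ql p1 dF L2 c1 F1)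
  have s3 := sm _ ε _ hε.le hε1 (m3 dl p1 qF L1 c1 F2)
  have s4 := m4 dl p2 dF dF L1 c2 F1 F1
  have s5 := sm _ ε _ hε.le hε1 (m3 l p1 tF L0 c1 F3)
  have s6 := m4 l p2 dF qF L0 c2 F1 F2
  have hR3 : 0 ≤ R ^ 3 * C := by positivity
  have hR3' : 0 ≤ R ^ 3 := by positivity
  clear m2 m3 m4 sm
  rw [abs_le] at s1 s2 s3 s4 s5 s6 f3 ⊢
  have e : 20 * R ^ 3 * (1 + C) = 20 * R ^ 3 + 20 * (R ^ 3 * C) := by ring
  rw [e]
  constructor
  · linarith [s1.1, s2.1, s3.1, s4.1, s5.1, s6.1, f3.1]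
  · linarith [s1.2, s2.2, s3.2, s4.2, s5.2, s6.2, f3.2]

/-- the estimate of the third derivative of the perturbed function -/
lemma pert_est3 {U K : Set E} (hU : IsOpen U) (hKU : K ⊆ U) {f F lam : E → ℝ}
    {Φ Φ1 Φ2 Φ3 : ℝ → ℝ} {ε R C : ℝ} (hf : ContDiffOn ℝ 3 f U) (hF : ContDiffOn ℝ 3 F U)
    (hl : ContDiffOn ℝ 3 lam U) (hΦ : ContDiff ℝ 3 Φ) (hε : 0 < ε) (hε1 : ε ≤ 1)
    (h0 : ∀ x, HasDerivAt Φ (Φ1 x) x) (h1 : ∀ x, HasDerivAt Φ1 (Φ2 x) x)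
    (h2 : ∀ x, HasDerivAt Φ2 (Φ3 x) x) (hR : 1 ≤ R)
    (bf : ∀ x ∈ K, |f x| ≤ R ∧
      (∀ v, ‖v‖ = 1 → |fderiv ℝ f x v| ≤ R) ∧ (∀ v w, ‖v‖ = 1 → ‖w‖ = 1 → |H2 f x v w| ≤ R) ∧
      ∀ v, ‖v‖ = 1 → |H3 f x v v v| ≤ R)
    (bF : ∀ x ∈ K, |F x| ≤ R ∧
      (∀ v, ‖v‖ = 1 → |fderiv ℝ F x v| ≤ R) ∧ (∀ v w, ‖v‖ = 1 → ‖w‖ = 1 → |H2 F x v w| ≤ R) ∧
      ∀ v, ‖v‖ = 1 → |H3 F x v v v| ≤ R)
    (bl : ∀ x ∈ K, |lam x| ≤ R ∧
      (∀ v, ‖v‖ = 1 → |fderiv ℝ lam x v| ≤ R) ∧ (∀ v w, ‖v‖ = 1 → ‖w‖ = 1 → |H2 lam x v w| ≤ R) ∧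
      ∀ v, ‖v‖ = 1 → |H3 lam x v v v| ≤ R)
    (hC : ∀ x, |Φ x| ≤ C) (hC1 : ∀ x, |Φ1 x| ≤ C) (hC2 : ∀ x, |Φ2 x| ≤ C) {x : E} (hx : x ∈ K)
    {k : E} (hk : ‖k‖ = 1) :
    |H3 (pert f F lam Φ ε) x k k k - lam x * Φ3 (F x / ε) * fderiv ℝ F x k ^ 3 / ε| ≤
      20 * R ^ 3 * (1 + C) := by
  rw [pert_D3 hU hf hF hl hΦ hε.ne' h0 h1 h2 (hKU hx) k]
  obtain ⟨-, -, -, f3⟩ := bf x hx
  obtain ⟨-, F1, F2, F3⟩ := bF x hx
  obtain ⟨L0, L1, L2, L3⟩ := bl x hx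
  have := real_est3 hR hε hε1 (f3 k hk) (F1 k hk) (F2 k k hk hk) (F3 k hk) L0 (L1 k hk)
    (L2 k k hk hk) (L3 k hk) (hC (F x / ε)) (hC1 (F x / ε)) (hC2 (F x / ε))
  refine le_trans (le_of_eq ?_) this
  congr 1
  ring

end

end Pool.Agent.H30.Hedge
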