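import Mathlib
import Pool.Agent.H30.Hedge.Ring

/-!
# The ring insertion lemma: the part `0 ≤ F`, and the final statement
-/

open Set Filter Topology
open scoped ContDiff

namespace Pool.Agent.H30.Hedge

noncomputable section

variable {E : Type*} [NormedAddCommGroup E] [NormedSpace ℝ E]

lemma H2_contOn {U K : Set E} (hU : IsOpen U) (hKU : K ⊆ U) {f : E → ℝ}
    (hf : ContDiffOn ℝ 3 f U) (S : Set E) {a b : E × E × E → E} (ha : Continuous a)
    (hb : Continuous b) :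
    ContinuousOn (fun p : E × E × E => H2 f p.1 (a p) (b p)) (K ×ˢ S ×ˢ S) := by
  have h1 : ContinuousOn (fun p : E × E × E => fderiv ℝ (fderiv ℝ f) p.1) (K ×ˢ S ×ˢ S) :=
    (H2_cont hU hf).comp continuousOn_fst (fun p hp => hKU hp.1)
  exact (h1.clm_apply ha.continuousOn).clm_apply hb.continuousOn

lemma fd_contOn {U K : Set E} (hU : IsOpen U) (hKU : K ⊆ U) {f : E → ℝ}
    (hf : ContDiffOn ℝ 3 f U) (S : Set E) {a : E × E × E → E} (ha : Continuous a) :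
    ContinuousOn (fun p : E × E × E => fderiv ℝ f p.1 (a p)) (K ×ˢ S ×ˢ S) := by
  have h1 : ContinuousOn (fun p : E × E × E => fderiv ℝ f p.1) (K ×ˢ S ×ˢ S) :=
    (fd_cont hU hf).comp continuousOn_fst (fun p hp => hKU hp.1)
  exact h1.clm_apply ha.continuousOn

lemma f_contOn {U K : Set E} (hKU : K ⊆ U) {f : E → ℝ}
    (hf : ContDiffOn ℝ 3 f U) (S : Set E) :
    ContinuousOn (fun p : E × E × E => f p.1) (K ×ˢ S ×ˢ S) :=
  hf.continuousOn.comp continuousOn_fst (fun p hp => hKU hp.1)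

lemma fd_neg (f : E → ℝ) : fderiv ℝ (fun x => -f x) = fun x => -fderiv ℝ f x := by
  funext y; exact fderiv_fun_neg

lemma H2_neg (f : E → ℝ) (x v w : E) : H2 (fun x => -f x) x v w = -H2 f x v w := by
  unfold H2
  rw [fd_neg, fderiv_fun_neg]
  simp

set_option maxSynthPendingDepth 3 in
lemma H3_neg (f : E → ℝ) (x u v w : E) : H3 (fun x => -f x) x u v w = -H3 f x u v w := by
  have h : fderiv ℝ (fun x => -fderiv ℝ f x) = fun x => -fderiv ℝ (fderiv ℝ f) x := by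
    funext y; exact fderiv_fun_neg
  unfold H3
  rw [fd_neg, h, fderiv_fun_neg]
  simp

/-- a margin for the indefinite part -/
lemma indef_margin {U K : Set E} (hU : IsOpen U) (hK : IsCompact K) (hKU : K ⊆ U) {f F : E → ℝ}
    (hf : ContDiffOn ℝ 3 f U) (hF : ContDiffOn ℝ 3 F U) {c0 : ℝ}
    (A1 : ∀ x ∈ K, |F x| ≤ c0 → ∃ v, H2 f x v v < 0) :
    ∃ ν : ℝ, 0 < ν ∧ ∀ x ∈ K, |F x| ≤ c0 + ν → ∃ v, ‖v‖ = 1 ∧ H2 f x v v ≤ -ν := by
  have key : ∃ ν : ℝ, 0 < ν ∧ ∀ x ∈ K, |F x| ≤ c0 + ν → ∃ v, ‖v‖ = 1 ∧ H2 f x v v ≤ -ν := by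
    refine hK.induction_on (p := fun S => ∃ ν : ℝ, 0 < ν ∧ ∀ x ∈ S, |F x| ≤ c0 + ν →
      ∃ v, ‖v‖ = 1 ∧ H2 f x v v ≤ -ν) ⟨1, one_pos, by simp⟩ ?_ ?_ ?_
    · rintro s t hst ⟨ν, hν, h⟩
      exact ⟨ν, hν, fun x hx => h x (hst hx)⟩
    · rintro s t ⟨ν, hν, h⟩ ⟨μ, hμ, h'⟩
      refine ⟨min ν μ, lt_min hν hμ, ?_⟩
      rintro x (hx | hx) hxF
      · obtain ⟨v, hv, hv'⟩ := h x hx (hxF.trans (by linarith [min_le_left ν μ]))
        exact ⟨v, hv, hv'.trans (by linarith [min_le_left ν μ])⟩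
      · obtain ⟨v, hv, hv'⟩ := h' x hx (hxF.trans (by linarith [min_le_right ν μ]))
        exact ⟨v, hv, hv'.trans (by linarith [min_le_right ν μ])⟩
    · intro x hx
      have hxU := hKU hx
      have hFc : ContinuousAt F x := (hF.continuousOn).continuousAt (hU.mem_nhds hxU)
      rcases le_or_gt |F x| c0 with h | h
      · obtain ⟨v, hv⟩ := A1 x hx h
        have hv0 : v ≠ 0 := by rintro rfl; simp [H2] at hv
        set u : E := ‖v‖⁻¹ • v with hu
        have hu1 : ‖u‖ = 1 := norm_smul_inv_norm (𝕜 := ℝ) hv0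
        have hu2 : H2 f x u u < 0 := by
          rw [hu, H2_smul_left, H2_smul_right]
          have : 0 < ‖v‖⁻¹ := inv_pos.2 (norm_pos_iff.2 hv0)
          exact mul_neg_of_pos_of_neg this (mul_neg_of_pos_of_neg this hv)
        have hc : ContinuousAt (fun y => H2 f y u u) x := by
          have h1 : ContinuousAt (fderiv ℝ (fderiv ℝ f)) x :=
            (H2_cont hU hf).continuousAt (hU.mem_nhds hxU)
          exact (h1.clm_apply continuousAt_const).clm_apply continuousAt_const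
        have hev : ∀ᶠ y in 𝓝 x, H2 f y u u < H2 f x u u / 2 :=
          hc.eventually (gt_mem_nhds (by linarith))
        refine ⟨{y | H2 f y u u < H2 f x u u / 2}, mem_nhdsWithin_of_mem_nhds hev,
          -(H2 f x u u / 2), by linarith, ?_⟩
        intro y hy _
        exact ⟨u, hu1, by rw [neg_neg]; exact (le_of_lt hy)⟩
      · have hc : ContinuousAt (fun y => |F y|) x := hFc.abs
        have hev : ∀ᶠ y in 𝓝 x, c0 + (|F x| - c0) / 2 < |F y| :=
          hc.eventually (lt_mem_nhds (by linarith))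
        refine ⟨{y | c0 + (|F x| - c0) / 2 < |F y|}, mem_nhdsWithin_of_mem_nhds hev,
          (|F x| - c0) / 2, by linarith, ?_⟩
        intro y hy hy'
        exact absurd hy' (not_le.2 hy)
  exact key

/-- the properties of the inserted function used for `0 ≤ F` -/
structure Good (Φ Φ1 Φ2 Φ3 : ℝ → ℝ) (C κ Λ p q : ℝ) : Prop where
  d0 : ∀ x, HasDerivAt Φ (Φ1 x) x
  d1 : ∀ x, HasDerivAt Φ1 (Φ2 x) x
  d2 : ∀ x, HasDerivAt Φ2 (Φ3 x) x
  smooth : ContDiff ℝ 3 Φ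
  b0 : ∀ x, |Φ x| ≤ C
  b1 : ∀ x, |Φ1 x| ≤ C
  b2 : ∀ x, |Φ2 x| ≤ C
  out : ∀ x, 0 ≤ x → x ≤ p ∨ q ≤ x → Φ2 x = 0
  start : ∀ x, p ≤ x → x ≤ p + 1 → Φ2 x ≤ 0
  fin : ∀ x, q - 1 ≤ x → x ≤ q → 0 ≤ Φ2 x
  mid : ∀ x, p + 1 ≤ x → x ≤ q - 1 → Λ ≤ |Φ2 x| ∨ κ ≤ |Φ3 x|

/-- the conclusion at one point -/
def Conc (g : E → ℝ) (x : E) : Prop :=
  ∀ k, k ≠ 0 → (∀ v, H2 g x k v = 0) → H3 g x k k k ≠ 0 ∧ ∃ v, H2 g x v v ≠ 0

lemma H3_smul (g : E → ℝ) (x : E) (c : ℝ) (k : E) :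
    H3 g x (c • k) (c • k) (c • k) = c ^ 3 * H3 g x k k k := by
  simp [H3]
  ring

lemma conc_of_unit {g : E → ℝ} {x : E}
    (h : ∀ k, ‖k‖ = 1 → (∀ v, H2 g x k v = 0) → H3 g x k k k ≠ 0 ∧ ∃ v, H2 g x v v ≠ 0) :
    Conc g x := by
  intro k hk0 hk
  have hpos : 0 < ‖k‖ := norm_pos_iff.2 hk0
  obtain ⟨h1, h2⟩ := h (‖k‖⁻¹ • k) (norm_smul_inv_norm (𝕜 := ℝ) hk0) (fun v => by
    rw [H2_smul_left, hk, mul_zero])
  refine ⟨fun h3 => h1 ?_, h2⟩
  rw [H3_smul, h3, mul_zero]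

theorem side [FiniteDimensional ℝ E] (hdim : Module.finrank ℝ E = 2) {U K : Set E}
    (hU : IsOpen U) (hK : IsCompact K) (hKU : K ⊆ U) {f F lam : E → ℝ}
    (hf : ContDiffOn ℝ 3 f U) (hF : ContDiffOn ℝ 3 F U) (hl : ContDiffOn ℝ 3 lam U)
    (hlam : ∀ x ∈ K, 0 < lam x) {c0 c1 : ℝ} (hc0 : 0 < c0) (hc01 : c0 < c1)
    (A1 : ∀ x ∈ K, |F x| ≤ c0 → (∃ v, H2 f x v v < 0) ∧ ∃ v, 0 < H2 f x v v)
    (A2 : ∀ x ∈ K, c0 ≤ F x → F x ≤ c1 → (∃ v, fderiv ℝ F x v ≠ 0) ∧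
      ∀ t, t ≠ 0 → fderiv ℝ F x t = 0 → 0 < H2 f x t t)
    (A3 : ∀ x ∈ K, c1 ≤ F x → ∀ v, v ≠ 0 → 0 < H2 f x v v) :
    ∃ L0 : ℝ, 0 < L0 ∧ ∀ Λ, L0 ≤ Λ → ∀ C κ : ℝ, 0 < C → 0 < κ → ∃ ε0 : ℝ, 0 < ε0 ∧ ∀ ε, 0 < ε →
      ε < ε0 → ∀ Φ Φ1 Φ2 Φ3 : ℝ → ℝ, Good Φ Φ1 Φ2 Φ3 C κ Λ (c0 / ε) (c1 / ε) →
      ∀ x ∈ K, 0 ≤ F x → Conc (pert f F lam Φ ε) x := by
  -- bounds
  obtain ⟨Rf, hRf, bf⟩ := bounds hU hK hKU hf
  obtain ⟨RF, hRF, bF⟩ := bounds hU hK hKU hF
  obtain ⟨Rl, hRl, bl⟩ := bounds hU hK hKU hl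
  set R : ℝ := max Rf (max RF Rl) with hRdef
  have r1 : Rf ≤ R := le_max_left _ _
  have r2 : RF ≤ R := (le_max_left _ _).trans (le_max_right _ _)
  have r3 : Rl ≤ R := (le_max_right _ _).trans (le_max_right _ _)
  have hR : 1 ≤ R := hRf.trans r1
  have mono : ∀ {g : E → ℝ} {R' : ℝ}, R' ≤ R → (∀ x ∈ K, |g x| ≤ R' ∧
      (∀ v, ‖v‖ = 1 → |fderiv ℝ g x v| ≤ R') ∧ (∀ v w, ‖v‖ = 1 → ‖w‖ = 1 → |H2 g x v w| ≤ R') ∧
      ∀ v, ‖v‖ = 1 → |H3 g x v v v| ≤ R') → ∀ x ∈ K, |g x| ≤ R ∧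
      (∀ v, ‖v‖ = 1 → |fderiv ℝ g x v| ≤ R) ∧ (∀ v w, ‖v‖ = 1 → ‖w‖ = 1 → |H2 g x v w| ≤ R) ∧
      ∀ v, ‖v‖ = 1 → |H3 g x v v v| ≤ R := by
    intro g R' hR' h x hx
    obtain ⟨h1, h2, h3, h4⟩ := h x hx
    exact ⟨h1.trans hR', fun v hv => (h2 v hv).trans hR', fun v w hv hw => (h3 v w hv hw).trans hR',
      fun v hv => (h4 v hv).trans hR'⟩
  have bf := mono r1 bf
  have bF := mono r2 bF
  have bl := mono r3 bl
  -- lower bound for `lam`
  obtain ⟨l0, hl0, hl0'⟩ := unif hK (g := fun _ => 0) (h := lam) continuousOn_const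
    (hl.continuousOn.mono hKU) (fun x hx _ => hlam x hx)
  have hlam0 : ∀ x ∈ K, l0 ≤ lam x := fun x hx => hl0' x hx hl0.le
  -- the unit sphere
  set S : Set E := Metric.sphere 0 1 with hS
  have hSc : IsCompact S := isCompact_sphere 0 1
  have hKS : IsCompact (K ×ˢ S ×ˢ S) := hK.prod (hSc.prod hSc)
  have memS : ∀ v : E, v ∈ S ↔ ‖v‖ = 1 := fun v => by simp [hS]
  have cF := f_contOn hKU hF S
  have cFt := fd_contOn hU hKU hF S (a := fun p => p.2.2) (by fun_prop)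
  have cFk := fd_contOn hU hKU hF S (a := fun p => p.2.1) (by fun_prop)
  have cHtt := H2_contOn hU hKU hf S (a := fun p => p.2.2) (b := fun p => p.2.2) (by fun_prop)
    (by fun_prop)
  have cHkt := H2_contOn hU hKU hf S (a := fun p => p.2.1) (b := fun p => p.2.2) (by fun_prop)
    (by fun_prop)
  -- margin for tangent vectors in the collar
  obtain ⟨a0, ha0, hA2⟩ := unif hKS
    (g := fun p => max (max (c0 - F p.1) (F p.1 - c1)) |fderiv ℝ F p.1 p.2.2|)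
    (h := fun p => H2 f p.1 p.2.2 p.2.2)
    (((continuousOn_const.sub cF).sup (cF.sub continuousOn_const)).sup cFt.abs) cHtt (by
      rintro ⟨x, k, t⟩ ⟨hx, hk, ht⟩ hg
      simp only [max_le_iff] at hg
      obtain ⟨⟨g1, g2⟩, g3⟩ := hg
      have ht1 := (memS t).1 ht
      exact (A2 x hx (by linarith) (by linarith)).2 t (by
        rintro rfl; simp at ht1) (abs_nonpos_iff.1 g3))
  -- the kernel is transversal in the collar
  obtain ⟨m0, hm0, hM⟩ := unif hKS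
    (g := fun p => max (max (c0 - F p.1) (F p.1 - c1)) |fderiv ℝ F p.1 p.2.2|)
    (h := fun p => |H2 f p.1 p.2.1 p.2.2| + |fderiv ℝ F p.1 p.2.1|)
    (((continuousOn_const.sub cF).sup (cF.sub continuousOn_const)).sup cFt.abs)
    (cHkt.abs.add cFk.abs) (by
      rintro ⟨x, k, t⟩ ⟨hx, hk, ht⟩ hg
      simp only [max_le_iff] at hg
      obtain ⟨⟨g1, g2⟩, g3⟩ := hg
      have ht1 := (memS t).1 ht
      have hk1 := (memS k).1 hk
      have ht0 : t ≠ 0 := by rintro rfl; simp at ht1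
      have hk0 : k ≠ 0 := by rintro rfl; simp at hk1
      obtain ⟨⟨w, hw⟩, h2⟩ := A2 x hx (by linarith) (by linarith)
      have hFt : fderiv ℝ F x t = 0 := abs_nonpos_iff.1 g3
      by_contra hcon
      push Not at hcon
      have n1 := abs_nonneg (H2 f x k t)
      have n2 := abs_nonneg (fderiv ℝ F x k)
      have hH : H2 f x k t = 0 := abs_nonpos_iff.1 (by simp only at hcon; linarith)
      have hFk : fderiv ℝ F x k = 0 := abs_nonpos_iff.1 (by simp only at hcon; linarith)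
      by_cases hc : ∀ c : ℝ, c • t ≠ k
      · obtain ⟨α, β, rfl⟩ := span2 hdim ht0 hc w
        rw [map_add, map_smul, map_smul, hFt, hFk] at hw
        simp at hw
      · push Not at hc
        obtain ⟨c, rfl⟩ := hc
        rw [H2_smul_left] at hH
        have := h2 t ht0 hFt
        rcases mul_eq_zero.1 hH with h | h
        · rw [h, zero_smul] at hk0; exact hk0 rfl
        · rw [h] at this; exact lt_irrefl _ this)
  -- margin for the definite part
  obtain ⟨d0, hd0, hD⟩ := unif hKS (g := fun p => c1 - F p.1) (h := fun p => H2 f p.1 p.2.2 p.2.2)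
    (continuousOn_const.sub cF) cHtt (by
      rintro ⟨x, k, t⟩ ⟨hx, hk, ht⟩ hg
      have ht1 := (memS t).1 ht
      exact A3 x hx (by simp only at hg; linarith) t (by rintro rfl; simp at ht1))
  -- margins for the indefinite part
  obtain ⟨n0, hn0, hN⟩ := indef_margin hU hK hKU hf hF (fun x hx h => (A1 x hx h).1)
  obtain ⟨n1, hn1, hN1⟩ := indef_margin (f := fun x => -f x) hU hK hKU hf.neg hF (c0 := c0)
    (fun x hx h => by
      obtain ⟨v, hv⟩ := (A1 x hx h).2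
      refine ⟨v, ?_⟩
      rw [H2_neg]
      linarith)
  -- the constants
  set L0 : ℝ := (R + 1) / (l0 * (m0 / 2) ^ 2) + 1 with hL0
  have hL0pos : 0 < L0 := by positivity
  refine ⟨L0, hL0pos, ?_⟩
  intro Λ hΛ C κ hC hκ
  set η : ℝ := 4 * R ^ 2 * C with hη
  have hηpos : 0 < η := by positivity
  set Q3 : ℝ := 20 * R ^ 3 * (1 + C) with hQ3
  have hQ3pos : 0 < Q3 := by positivity
  set μ : ℝ := min (min (min n0 n1) (min a0 d0)) (min (m0 / 2) 1) with hμ
  have hμpos : 0 < μ := by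
    simp only [hμ, lt_min_iff]
    exact ⟨⟨⟨hn0, hn1⟩, ha0, hd0⟩, half_pos hm0, one_pos⟩
  have hμ0 : μ ≤ n0 := ((min_le_left _ _).trans (min_le_left _ _)).trans (min_le_left _ _)
  have hμ1 : μ ≤ n1 := ((min_le_left _ _).trans (min_le_left _ _)).trans (min_le_right _ _)
  have hμ2 : μ ≤ a0 := ((min_le_left _ _).trans (min_le_right _ _)).trans (min_le_left _ _)
  have hμ3 : μ ≤ d0 := ((min_le_left _ _).trans (min_le_right _ _)).trans (min_le_right _ _)
  have hμ4 : μ ≤ m0 / 2 := (min_le_right _ _).trans (min_le_left _ _)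
  have hμ5 : μ ≤ 1 := (min_le_right _ _).trans (min_le_right _ _)
  set T : ℝ := l0 * κ * (m0 / 2) ^ 3 with hT
  have hTpos : 0 < T := by positivity
  refine ⟨min (min (μ / (η + 1)) (T / (Q3 + 1))) (min μ (c1 - c0)), ?_, ?_⟩
  · simp only [lt_min_iff]
    exact ⟨⟨by positivity, by positivity⟩, hμpos, by linarith⟩
  intro ε hε hεlt Φ Φ1 Φ2 Φ3 hgood x hx hF0
  simp only [lt_min_iff] at hεlt
  obtain ⟨⟨e1, e2⟩, e3, e4⟩ := hεlt
  have hε1 : ε ≤ 1 := (e3.le).trans hμ5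
  have hηε : η * ε < μ := by
    rw [lt_div_iff₀ (by positivity)] at e1
    nlinarith
  have hQε : Q3 * ε < T := by
    rw [lt_div_iff₀ (by positivity)] at e2
    nlinarith
  have hxU := hKU hx
  have hpc : ContDiffOn ℝ 3 (pert f F lam Φ ε) U := pert_contDiffOn hf hF hl hgood.smooth
  have hsym : ∀ a b, H2 (pert f F lam Φ ε) x a b = H2 (pert f F lam Φ ε) x b a :=
    fun a b => H2_symm hU hpc hxU a b
  have est : ∀ v w : E, ‖v‖ = 1 → ‖w‖ = 1 → |H2 (pert f F lam Φ ε) x v w - H2 f x v w -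
      lam x * Φ2 (F x / ε) * (fderiv ℝ F x v * fderiv ℝ F x w)| < μ := by
    intro v w hv hw
    have := pert_est2 hU hKU hf hF hl hgood.smooth hε hε1 hgood.d0 hgood.d1 hR bF bl hgood.b0
      hgood.b1 hx hv hw
    exact lt_of_le_of_lt this hηε
  have hlx := hlam0 x hx
  have hlx0 : 0 < lam x := hlam x hx
  apply conc_of_unit
  intro k hk1 hk
  have hk0 : k ≠ 0 := by rintro rfl; simp at hk1
  have hyε : F x / ε * ε = F x := div_mul_cancel₀ _ hε.ne'
  have hcε : c0 / ε * ε = c0 := div_mul_cancel₀ _ hε.ne'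
  have hcε1 : c1 / ε * ε = c1 := div_mul_cancel₀ _ hε.ne'
  have hy0 : 0 ≤ F x / ε := div_nonneg hF0 hε.le
  rcases le_or_gt (F x) (c0 + ε) with hcase | hcase
  · -- near the inner part: no kernel
    exfalso
    have hneg : Φ2 (F x / ε) ≤ 0 := by
      rcases le_or_gt (F x) c0 with h | h
      · exact (hgood.out _ hy0 (Or.inl ((div_le_div_iff_of_pos_right hε).2 h))).le
      · apply hgood.start
        · exact (div_le_div_iff_of_pos_right hε).2 h.le
        · rw [div_add_one hε.ne', div_le_div_iff_of_pos_right hε]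
          exact hcase
    obtain ⟨v, hv1, hv⟩ := hN x hx (by rw [abs_of_nonneg hF0]; linarith)
    have hgv : H2 (pert f F lam Φ ε) x v v < 0 := by
      have h1 := (abs_lt.1 (est v v hv1 hv1)).2
      have h2 : lam x * Φ2 (F x / ε) * (fderiv ℝ F x v * fderiv ℝ F x v) ≤ 0 :=
        mul_nonpos_of_nonpos_of_nonneg (mul_nonpos_of_nonneg_of_nonpos hlx0.le hneg)
          (mul_self_nonneg _)
      linarith
    have hgt : ∃ t, 0 < H2 (pert f F lam Φ ε) x t t := by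
      rcases le_or_gt (F x) c0 with h | h
      · have hz : Φ2 (F x / ε) = 0 :=
          hgood.out _ hy0 (Or.inl ((div_le_div_iff_of_pos_right hε).2 h))
        obtain ⟨t, ht1, ht⟩ := hN1 x hx (by rw [abs_of_nonneg hF0]; linarith)
        rw [H2_neg] at ht
        refine ⟨t, ?_⟩
        have h1 := (abs_lt.1 (est t t ht1 ht1)).1
        rw [hz] at h1
        linarith
      · obtain ⟨t, ht1, ht⟩ := exists_unit_ker hdim (fderiv ℝ F x)
        refine ⟨t, ?_⟩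
        have h1 := (abs_lt.1 (est t t ht1 ht1)).1
        have h2 := hA2 (x, t, t) ⟨hx, (memS t).2 ht1, (memS t).2 ht1⟩ (by
          simp only [max_le_iff]
          exact ⟨⟨by linarith, by linarith⟩, by rw [ht, abs_zero]; exact ha0.le⟩)
        simp only at h2
        rw [ht] at h1
        linarith
    obtain ⟨t, ht⟩ := hgt
    exact no_kernel hdim hsym ht hgv hk0 hk
  rcases le_or_gt (c1 - ε) (F x) with hcase3 | hcase3
  · -- near the outer part: definite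
    exfalso
    have hpos : 0 ≤ Φ2 (F x / ε) := by
      rcases le_or_gt c1 (F x) with h | h
      · exact (hgood.out _ hy0 (Or.inr ((div_le_div_iff_of_pos_right hε).2 h))).ge
      · apply hgood.fin
        · rw [div_sub_one hε.ne', div_le_div_iff_of_pos_right hε]
          exact hcase3
        · exact (div_le_div_iff_of_pos_right hε).2 h.le
    have h1 := (abs_lt.1 (est k k hk1 hk1)).1
    have h2 := hD (x, k, k) ⟨hx, (memS k).2 hk1, (memS k).2 hk1⟩ (by simp only; linarith)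
    simp only at h2
    have h3 : 0 ≤ lam x * Φ2 (F x / ε) * (fderiv ℝ F x k * fderiv ℝ F x k) :=
      mul_nonneg (mul_nonneg hlx0.le hpos) (mul_self_nonneg _)
    rw [hk k] at h1
    linarith
  -- the oscillating part
  obtain ⟨t, ht1, ht⟩ := exists_unit_ker hdim (fderiv ℝ F x)
  have hgtt : 0 < H2 (pert f F lam Φ ε) x t t := by
    have h1 := (abs_lt.1 (est t t ht1 ht1)).1
    have h2 := hA2 (x, t, t) ⟨hx, (memS t).2 ht1, (memS t).2 ht1⟩ (by
      simp only [max_le_iff]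
      exact ⟨⟨by linarith, by linarith⟩, by rw [ht, abs_zero]; exact ha0.le⟩)
    simp only at h2
    rw [ht] at h1
    linarith
  refine ⟨?_, t, hgtt.ne'⟩
  -- the kernel is transversal
  have hdFk : m0 / 2 ≤ |fderiv ℝ F x k| := by
    have h1 := est k t hk1 ht1
    rw [hk t, ht] at h1
    have h2 := hM (x, k, t) ⟨hx, (memS k).2 hk1, (memS t).2 ht1⟩ (by
      simp only [max_le_iff]
      exact ⟨⟨by linarith, by linarith⟩, by rw [ht, abs_zero]; exact hm0.le⟩)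
    simp only at h2
    have h3 : |H2 f x k t| < μ := by
      have e : 0 - H2 f x k t - lam x * Φ2 (F x / ε) * (fderiv ℝ F x k * 0) = -H2 f x k t := by
        ring
      rw [e, abs_neg] at h1
      exact h1
    linarith
  -- `Φ2` is not large
  have hΦ2 : |Φ2 (F x / ε)| < Λ := by
    have h1 := est k k hk1 hk1
    rw [hk k] at h1
    have h2 := (bf x hx).2.2.1 k k hk1 hk1
    have h3 : |lam x * Φ2 (F x / ε) * (fderiv ℝ F x k * fderiv ℝ F x k)| ≤ R + 1 := by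
      rw [abs_lt] at h1
      rw [abs_le] at h2 ⊢
      constructor <;> linarith [h1.1, h1.2, h2.1, h2.2]
    rw [abs_mul, abs_mul, abs_mul, abs_of_pos hlx0] at h3
    have h4 : l0 * |Φ2 (F x / ε)| * ((m0 / 2) * (m0 / 2)) ≤
        lam x * |Φ2 (F x / ε)| * (|fderiv ℝ F x k| * |fderiv ℝ F x k|) := by
      gcongr
    have h5 : |Φ2 (F x / ε)| ≤ (R + 1) / (l0 * (m0 / 2) ^ 2) := by
      rw [le_div_iff₀ (by positivity)]
      calc |Φ2 (F x / ε)| * (l0 * (m0 / 2) ^ 2) = l0 * |Φ2 (F x / ε)| * ((m0 / 2) * (m0 / 2)) := by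
            ring
        _ ≤ R + 1 := h4.trans h3
    linarith
  -- so `Φ3` is large
  have hmid := hgood.mid (F x / ε)
    (by rw [div_add_one hε.ne', div_le_div_iff_of_pos_right hε]; exact hcase.le)
    (by rw [div_sub_one hε.ne', div_le_div_iff_of_pos_right hε]; exact hcase3.le)
  have hΦ3 : κ ≤ |Φ3 (F x / ε)| := by
    rcases hmid with h | h
    · exact absurd hΦ2 (not_lt.2 h)
    · exact h
  have h3 := pert_est3 hU hKU hf hF hl hgood.smooth hε hε1 hgood.d0 hgood.d1 hgood.d2 hR bf bF bl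
    hgood.b0 hgood.b1 hgood.b2 hx hk1
  intro hzero
  rw [hzero, zero_sub, abs_neg, abs_div, abs_mul, abs_mul, abs_pow, abs_of_pos hlx0,
    abs_of_pos hε, div_le_iff₀ hε] at h3
  have h4 : T ≤ lam x * |Φ3 (F x / ε)| * |fderiv ℝ F x k| ^ 3 := by
    rw [hT]
    gcongr
  linarith

/-- **The ring insertion lemma.** -/
theorem ring_insertion [FiniteDimensional ℝ E] (hdim : Module.finrank ℝ E = 2) {U K : Set E}
    (hU : IsOpen U) (hK : IsCompact K) (hKU : K ⊆ U) {f F lam : E → ℝ}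
    (hf : ContDiffOn ℝ 3 f U) (hF : ContDiffOn ℝ 3 F U) (hl : ContDiffOn ℝ 3 lam U)
    (hlam : ∀ x ∈ K, 0 < lam x) {c0 c1 : ℝ} (hc0 : 0 < c0) (hc01 : c0 < c1)
    (A1 : ∀ x ∈ K, |F x| ≤ c0 → (∃ v, H2 f x v v < 0) ∧ ∃ v, 0 < H2 f x v v)
    (A2 : ∀ x ∈ K, c0 ≤ F x → F x ≤ c1 → (∃ v, fderiv ℝ F x v ≠ 0) ∧
      ∀ t, t ≠ 0 → fderiv ℝ F x t = 0 → 0 < H2 f x t t)
    (A3 : ∀ x ∈ K, c1 ≤ F x → ∀ v, v ≠ 0 → 0 < H2 f x v v)
    (A2' : ∀ x ∈ K, -c1 ≤ F x → F x ≤ -c0 → (∃ v, fderiv ℝ F x v ≠ 0) ∧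
      ∀ t, t ≠ 0 → fderiv ℝ F x t = 0 → H2 f x t t < 0)
    (A3' : ∀ x ∈ K, F x ≤ -c1 → ∀ v, v ≠ 0 → H2 f x v v < 0) :
    ∀ δ : ℝ, 0 < δ → ∃ (ε : ℝ) (Φ : ℝ → ℝ), 0 < ε ∧ ε < δ ∧ ContDiff ℝ ∞ Φ ∧
      (∀ x, Φ (-x) = -Φ x) ∧ (∀ x, |x| ≤ c0 / ε ∨ c1 / ε ≤ |x| → Φ x = 0) ∧
      ∀ x ∈ K, ∀ k, k ≠ 0 → (∀ v, H2 (pert f F lam Φ ε) x k v = 0) →
        H3 (pert f F lam Φ ε) x k k k ≠ 0 ∧ ∃ v, H2 (pert f F lam Φ ε) x v v ≠ 0 := by
  intro δ hδ
  obtain ⟨κ, C, hκ, hC, fam⟩ := bump_family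
  obtain ⟨L1, hL1, side1⟩ := side hdim hU hK hKU hf hF hl hlam hc0 hc01 A1 A2 A3
  obtain ⟨L2, hL2, side2⟩ := side (f := fun x => -f x) (F := fun x => -F x) hdim hU hK hKU hf.neg
    hF.neg hl hlam hc0 hc01
    (fun x hx h => by
      rw [abs_neg] at h
      obtain ⟨⟨v, hv⟩, w, hw⟩ := A1 x hx h
      exact ⟨⟨w, by rw [H2_neg]; linarith⟩, v, by rw [H2_neg]; linarith⟩)
    (fun x hx h h' => by
      obtain ⟨⟨v, hv⟩, h2⟩ := A2' x hx (by linarith) (by linarith)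
      rw [fd_neg]
      refine ⟨⟨v, by simpa using hv⟩, fun t ht0 ht => ?_⟩
      rw [H2_neg]
      have := h2 t ht0 (by simpa using ht)
      linarith)
    (fun x hx h v hv => by
      rw [H2_neg]
      have := A3' x hx (by linarith) v hv
      linarith)
  set Λ : ℝ := max L1 L2 with hΛ
  have hΛpos : 0 < Λ := lt_max_of_lt_left hL1
  obtain ⟨ε1, hε1, s1⟩ := side1 Λ (le_max_left _ _) (2 * Λ * C) (2 * Λ * κ) (by positivity)
    (by positivity)
  obtain ⟨ε2, hε2, s2⟩ := side2 Λ (le_max_right _ _) (2 * Λ * C) (2 * Λ * κ) (by positivity)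
    (by positivity)
  set ε0 : ℝ := min (min ε1 ε2) δ with hε0
  have hε0pos : 0 < ε0 := lt_min (lt_min hε1 hε2) hδ
  obtain ⟨n, hn⟩ := exists_nat_gt ((c1 - c0) / ε0)
  set M : ℕ := 2 * (n + 1) with hM
  have hM2 : 2 ≤ M := by omega
  have hME : Even M := ⟨n + 1, by omega⟩
  set ε : ℝ := (c1 - c0) / (M + 3) with hε
  have hc : 0 < c1 - c0 := by linarith
  have hMpos : (0 : ℝ) < M + 3 := by positivity
  have hεpos : 0 < ε := by positivity
  have hεlt : ε < ε0 := by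
    rw [hε, div_lt_iff₀ hMpos]
    rw [div_lt_iff₀ hε0pos] at hn
    have : (n : ℝ) ≤ M + 3 := by rw [hM]; push_cast; linarith [Nat.cast_nonneg (α := ℝ) n]
    nlinarith
  have hεl1 : ε < ε1 := hεlt.trans_le ((min_le_left _ _).trans (min_le_left _ _))
  have hεl2 : ε < ε2 := hεlt.trans_le ((min_le_left _ _).trans (min_le_right _ _))
  have hεδ : ε < δ := hεlt.trans_le (min_le_right _ _)
  have hq : c1 / ε = c0 / ε + M + 3 := by
    rw [hε]
    field_simp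
    ring
  obtain ⟨Φ, Φ1, Φ2, Φ3, hs, d0, d1, d2, o0, o1, o2, o3, hb, hout, hst, hfin, hmid⟩ :=
    fam M hM2 hME (c0 / ε) (by positivity)
  have good : Good (fun x => 2 * Λ * Φ x) (fun x => 2 * Λ * Φ1 x) (fun x => 2 * Λ * Φ2 x)
      (fun x => 2 * Λ * Φ3 x) (2 * Λ * C) (2 * Λ * κ) Λ (c0 / ε) (c1 / ε) := by
    have hbd : ∀ y : ℝ, |y| ≤ C → |2 * Λ * y| ≤ 2 * Λ * C := by
      intro y hy
      rw [abs_mul, abs_of_pos (by positivity : (0 : ℝ) < 2 * Λ)]
      gcongr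
    refine ⟨fun x => (d0 x).const_mul _, fun x => (d1 x).const_mul _,
      fun x => (d2 x).const_mul _, contDiff_const.mul (by exact_mod_cast contDiff_infty.1 hs 3),
      fun x => hbd _ (hb x).1, fun x => hbd _ (hb x).2.1, fun x => hbd _ (hb x).2.2.1, ?_, ?_, ?_, ?_⟩
    · intro x hx hx'
      rw [(hout x hx (by rwa [hq] at hx')).2.2.1, mul_zero]
    · intro x hx hx'
      exact mul_nonpos_of_nonneg_of_nonpos (by positivity) (hst x hx hx')
    · intro x hx hx'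
      rw [hq] at hx hx'
      exact mul_nonneg (by positivity) (hfin x (by linarith) hx')
    · intro x hx hx'
      rw [hq] at hx'
      rcases hmid x hx (by linarith) with h | h
      · left
        rw [abs_mul, abs_of_pos (by positivity : (0 : ℝ) < 2 * Λ)]
        nlinarith
      · right
        rw [abs_mul, abs_of_pos (by positivity : (0 : ℝ) < 2 * Λ)]
        gcongr
  refine ⟨ε, fun x => 2 * Λ * Φ x, hεpos, hεδ, contDiff_const.mul hs, ?_, ?_, ?_⟩
  · intro x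
    show 2 * Λ * Φ (-x) = -(2 * Λ * Φ x)
    rw [o0]
    ring
  · intro x hx
    show 2 * Λ * Φ x = 0
    have habs : Φ |x| = 0 := (hout |x| (abs_nonneg x) (by rwa [hq] at hx)).1
    rcases abs_choice x with h | h
    · rw [h] at habs; rw [habs, mul_zero]
    · rw [h, o0] at habs
      have : Φ x = 0 := by linarith
      rw [this, mul_zero]
  · intro x hx
    rcases le_total 0 (F x) with h | h
    · exact s1 ε hεpos hεl1 _ _ _ _ good x hx h
    · have := s2 ε hεpos hεl2 _ _ _ _ good x hx (by linarith)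
      have e : pert (fun x => -f x) (fun x => -F x) lam (fun x => 2 * Λ * Φ x) ε =
          fun x => -pert f F lam (fun x => 2 * Λ * Φ x) ε x := by
        funext y
        show -f y + ε ^ 2 * lam y * (2 * Λ * Φ (-F y / ε)) =
          -(f y + ε ^ 2 * lam y * (2 * Λ * Φ (F y / ε)))
        rw [neg_div, o0]
        ring
      rw [e] at this
      intro k hk0 hk
      obtain ⟨h1, v, h2⟩ := this k hk0 (fun v => by rw [H2_neg, hk, neg_zero])
      rw [H3_neg] at h1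
      rw [H2_neg] at h2
      exact ⟨fun h => h1 (by rw [h, neg_zero]), v, fun h => h2 (by rw [h, neg_zero])⟩

end

end Pool.Agent.H30.Hedge
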